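import Pool.Agent.J4.H53.WM.Four
import Pool.Agent.N825.FC.Fin

set_option autoImplicit false

/-! # Record prime gaps for families with a scaling -/

namespace Pool.Agent.J4.H53.WM

open Finset Filter
open Pool.Agent.N825.FC (Many crit Mid)

/-- the numerical inequality -/
lemma num (D : ℕ) (hD : 1 ≤ D) (η ε : ℝ) (h1 : ε < η)
    (h2 : ε < 1 / (4 * D)) : ∃ P₀ : ℝ, ∀ P : ℕ, P₀ ≤ P → 2 ≤ P → ∀ s B : ℝ, 0 ≤ s → 0 ≤ B →
      (P : ℝ) * B ^ (4 * D) ≤ cst D * (P : ℝ) ^ (4 * D) →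
      ((P : ℝ) - 1) * (s * (P : ℝ) ^ (-η)) + s * B ≤ ((P : ℝ) - 1) * (s * (P : ℝ) ^ (-ε)) := by
  have hD' : (0 : ℝ) < 4 * D := by positivity
  have t1 : Tendsto (fun x : ℝ => x ^ (-(η - ε))) atTop (nhds 0) :=
    tendsto_rpow_neg_atTop (by linarith)
  have t2 : Tendsto (fun x : ℝ => x ^ (-(1 / (4 * D) - ε))) atTop (nhds 0) :=
    tendsto_rpow_neg_atTop (by linarith)
  set C : ℝ := (cst D : ℝ) ^ (1 / (4 * D : ℝ)) with hC
  have hC0 : 0 ≤ C := by positivity
  have e1 := t1.eventually (eventually_le_nhds (show (0 : ℝ) < 1 / 2 by norm_num))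
  have e2 := t2.eventually (eventually_le_nhds (show (0 : ℝ) < 1 / (4 * C + 4) by positivity))
  obtain ⟨P₀, hP₀⟩ := eventually_atTop.1 (e1.and e2)
  refine ⟨P₀, ?_⟩
  intro P hP hP2 s B hs hB h
  obtain ⟨a1, a2⟩ := hP₀ P hP
  have hP2' : (2 : ℝ) ≤ P := by exact_mod_cast hP2
  have hP0 : (0 : ℝ) < P := by linarith
  -- the bound for `B`
  have hB2 : B ≤ C * (P : ℝ) ^ (1 - 1 / (4 * D : ℝ)) := by
    have h3 : B ^ (4 * D) ≤ cst D * (P : ℝ) ^ ((4 * D : ℝ) - 1) := by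
      rw [Real.rpow_sub_one hP0.ne']
      rw [← mul_div_assoc, le_div_iff₀ hP0, mul_comm]
      have e : (P : ℝ) ^ (4 * D : ℝ) = (P : ℝ) ^ (4 * D) := by
        rw [← Real.rpow_natCast]
        push_cast
        rfl
      rw [e]
      exact h
    have h4 : B = (B ^ (4 * D)) ^ (1 / (4 * D : ℝ)) := by
      rw [← Real.rpow_natCast, ← Real.rpow_mul hB]
      push_cast
      rw [mul_one_div_cancel hD'.ne', Real.rpow_one]
    rw [h4]
    refine (Real.rpow_le_rpow (by positivity) h3 (by positivity)).trans ?_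
    rw [Real.mul_rpow (by positivity) (by positivity), ← Real.rpow_mul hP0.le]
    have e : ((4 * D : ℝ) - 1) * (1 / (4 * D : ℝ)) = 1 - 1 / (4 * D : ℝ) := by
      field_simp
    rw [e]
  have h5 : (P : ℝ) ^ (-η) ≤ 1 / 2 * (P : ℝ) ^ (-ε) := by
    have e : -η = -(η - ε) + -ε := by ring
    rw [e, Real.rpow_add hP0]
    exact mul_le_mul_of_nonneg_right a1 (by positivity)
  have h6 : B ≤ ((P : ℝ) - 1) * (1 / 2 * (P : ℝ) ^ (-ε)) := by
    have e : (1 - 1 / (4 * D : ℝ)) = 1 + (-(1 / (4 * D) - ε) + -ε) := by ring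
    rw [e, Real.rpow_add hP0, Real.rpow_one, Real.rpow_add hP0] at hB2
    have h7 : C * (P : ℝ) ^ (-(1 / (4 * D) - ε)) ≤ 1 / 4 := by
      calc C * (P : ℝ) ^ (-(1 / (4 * D) - ε)) ≤ C * (1 / (4 * C + 4)) :=
            mul_le_mul_of_nonneg_left a2 hC0
        _ ≤ 1 / 4 := by
            rw [mul_one_div, div_le_div_iff₀ (by positivity) (by norm_num)]
            linarith
    have h8 : 0 ≤ (P : ℝ) ^ (-ε) := by positivity
    have h9 : (P : ℝ) ≤ 2 * ((P : ℝ) - 1) := by linarith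
    calc B ≤ C * ((P : ℝ) * ((P : ℝ) ^ (-(1 / (4 * D) - ε)) * (P : ℝ) ^ (-ε))) := hB2
      _ = (C * (P : ℝ) ^ (-(1 / (4 * D) - ε))) * ((P : ℝ) * (P : ℝ) ^ (-ε)) := by ring
      _ ≤ 1 / 4 * ((P : ℝ) * (P : ℝ) ^ (-ε)) := mul_le_mul_of_nonneg_right h7 (by positivity)
      _ ≤ 1 / 4 * (2 * ((P : ℝ) - 1) * (P : ℝ) ^ (-ε)) := by
          refine mul_le_mul_of_nonneg_left ?_ (by norm_num)
          exact mul_le_mul_of_nonneg_right h9 h8
      _ = _ := by ring
  have h10 : (0 : ℝ) ≤ (P : ℝ) - 1 := by linarith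
  calc ((P : ℝ) - 1) * (s * (P : ℝ) ^ (-η)) + s * B
      ≤ ((P : ℝ) - 1) * (s * (1 / 2 * (P : ℝ) ^ (-ε))) +
        s * (((P : ℝ) - 1) * (1 / 2 * (P : ℝ) ^ (-ε))) := by
        refine add_le_add ?_ (mul_le_mul_of_nonneg_left h6 hs)
        exact mul_le_mul_of_nonneg_left (mul_le_mul_of_nonneg_left h5 hs) h10
    _ = _ := by ring

section

variable {P : ℕ} [Fact P.Prime]

lemma transpose_ne {J : Type} [Fintype J] [DecidableEq J] {m : ℕ}
    (T : (J → ZMod P) →ₗ[ZMod P] (Fin m → ZMod P)) (hT : Function.Surjective T)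
    (h : Fin m → ZMod P) (hh : h ≠ 0) :
    (fun i : J => ∑ j, h j * T (Pi.single i 1) j) ≠ 0 := by
  intro h0
  apply hh
  funext j
  obtain ⟨w, hw⟩ := hT (Pi.single j 1)
  have h1 : ∑ j, h j * T w j = 0 := by
    have e : T w = ∑ i, w i • T (Pi.single i 1) := by
      conv_lhs => rw [LinearMap.pi_apply_eq_sum_univ T w]
      refine sum_congr rfl fun i _ => ?_
      congr 2
      funext i'
      rw [Pi.single_apply]
      simp [eq_comm]
    rw [e]
    simp only [Finset.sum_apply, Pi.smul_apply, smul_eq_mul, mul_sum]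
    rw [sum_comm]
    refine sum_eq_zero fun i _ => ?_
    have h2 := congrFun h0 i
    simp only [Pi.zero_apply] at h2
    calc ∑ x, h x * (w i * T (Pi.single i 1) x) = w i * ∑ x, h x * T (Pi.single i 1) x := by
          rw [mul_sum]
          refine sum_congr rfl fun x _ => by ring
      _ = 0 := by rw [h2, mul_zero]
  rw [hw] at h1
  simpa [Pi.single_apply] using h1

lemma transpose_sum {J : Type} [Fintype J] [DecidableEq J] {m : ℕ}
    (T : (J → ZMod P) →ₗ[ZMod P] (Fin m → ZMod P)) (h : Fin m → ZMod P) (w : J → ZMod P) :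
    ∑ j, h j * T w j = ∑ i, (∑ j, h j * T (Pi.single i 1) j) * w i := by
  have e : T w = ∑ i, w i • T (Pi.single i 1) := by
    conv_lhs => rw [LinearMap.pi_apply_eq_sum_univ T w]
    refine sum_congr rfl fun i _ => ?_
    congr 2
    funext i'
    rw [Pi.single_apply]
    simp [eq_comm]
  rw [e]
  simp only [Finset.sum_apply, Pi.smul_apply, smul_eq_mul, mul_sum, sum_mul]
  rw [sum_comm]
  refine sum_congr rfl fun i _ => sum_congr rfl fun x _ => by ring

end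

/-- **Record prime gaps for families with a scaling.** -/
theorem abs {J : Type} [Fintype J] [DecidableEq J] (m D : ℕ) (hm : 1 ≤ m) (hD : 1 ≤ D)
    (η ε : ℝ) (hη : 0 < η) (hε : 0 < ε) (hε1 : ε ≤ 1) :
    ∃ κ : ℝ, 0 < κ ∧ ∃ δ : ℝ, 0 < δ ∧ ∃ P₀ : ℝ, ∀ (P : ℕ) [Fact P.Prime], P₀ ≤ P →
    ∀ (ι : Type) (s : Finset ι) (act : (ZMod P)ˣ → ι → ι) (v : ι → J → ZMod P) (d : J → ℤ),
    s.Nonempty → (∀ t, Set.BijOn (act t) s s) → (∀ j, d j ≠ 0 ∧ |d j| ≤ D) →
    (∀ t, ∀ x ∈ s, ∀ j, v (act t x) j = ((t ^ (d j) : (ZMod P)ˣ) : ZMod P) * v x j) →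
    (∀ h : J → ZMod P, h ≠ 0 → (∀ i j, h i ≠ 0 → h j ≠ 0 → d i = d j) →
      ((s.filter (fun x => ∑ j, h j * v x j = 0)).card : ℝ) ≤ s.card * (P : ℝ) ^ (-η)) →
    ∀ (T : (J → ZMod P) →ₗ[ZMod P] (Fin m → ZMod P)) (C : Fin m → ZMod P),
    Function.Surjective T → Many κ ε δ P s (fun x => T (v x) + C) := by
  classical
  have hD' : (0 : ℝ) < D := by exact_mod_cast hD
  set ε' : ℝ := min ε (min (η / 2) (1 / (8 * D))) with hε'
  have hε'0 : 0 < ε' := lt_min hε (lt_min (by linarith) (by positivity))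
  have hε'1 : ε' ≤ ε := min_le_left _ _
  have hε'2 : ε' < η := lt_of_le_of_lt ((min_le_right _ _).trans (min_le_left _ _)) (by linarith)
  have hε'3 : ε' < 1 / (4 * D) := by
    refine lt_of_le_of_lt ((min_le_right _ _).trans (min_le_right _ _)) ?_
    rw [div_lt_div_iff₀ (by positivity) (by positivity)]
    linarith
  obtain ⟨κ, hκ, δ, hδ, P₁, h1⟩ := crit m hm ε' hε'0 (hε'1.trans hε1)
  obtain ⟨P₂, h2⟩ := num D hD η ε' hε'2 hε'3
  refine ⟨κ, hκ, δ, hδ, max (max P₁ P₂) (D + 1), ?_⟩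
  intro P _ hP ι s act v d hs hact hd hv hz T C hT
  have hp : P.Prime := Fact.out
  have hPD : D < P := by
    have := (le_max_right _ _).trans hP
    exact_mod_cast (by linarith : (D : ℝ) < P)
  have hP1 : P₁ ≤ P := (le_max_left _ _).trans ((le_max_left _ _).trans hP)
  have hP2 : P₂ ≤ P := (le_max_right _ _).trans ((le_max_left _ _).trans hP)
  have hp1 : (1 : ℝ) ≤ P := by exact_mod_cast hp.one_le
  have hpos : (0 : ℝ) < (P : ℝ) - 1 := by
    have : (2 : ℝ) ≤ P := by exact_mod_cast hp.two_le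
    linarith
  refine (h1 P hP1 ι s _ hs ?_).mono hp1 hε'1
  intro h hh
  set g : J → ZMod P := fun i => ∑ j, h j * T (Pi.single i 1) j with hg
  have hg0 : g ≠ 0 := transpose_ne T hT h hh
  -- the sum
  have e1 : ‖∑ x ∈ s, (ZMod.stdAddChar (∑ j, h j * (T (v x) + C) j) : ℂ)‖ =
      ‖∑ x ∈ s, (ZMod.stdAddChar (∑ j, g j * v x j) : ℂ)‖ := by
    have e2 : ∀ x ∈ s, (ZMod.stdAddChar (∑ j, h j * (T (v x) + C) j) : ℂ) =
        (ZMod.stdAddChar (∑ j, h j * C j) : ℂ) * ZMod.stdAddChar (∑ j, g j * v x j) := by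
      intro x _
      rw [← AddChar.map_add_eq_mul]
      congr 1
      simp_rw [Pi.add_apply, mul_add, sum_add_distrib]
      rw [transpose_sum, add_comm]
    rw [sum_congr rfl e2, ← mul_sum, norm_mul, norm_std, one_mul]
  rw [e1]
  -- a bound for the complete sums
  obtain ⟨B, hB0, hB, hB2⟩ : ∃ B : ℝ, 0 ≤ B ∧ (∀ c : KK D → ZMod P, c ≠ 0 → ‖SL D c‖ ≤ B) ∧
      (P : ℝ) * B ^ (4 * D) ≤ cst D * (P : ℝ) ^ (4 * D) := by
    by_cases hne : ∃ c : KK D → ZMod P, c ≠ 0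
    · obtain ⟨c₀, hc₀⟩ := hne
      obtain ⟨c₁, hc₁, h3⟩ := exists_max_image ((univ : Finset (KK D → ZMod P)).filter (· ≠ 0))
        (fun c => ‖SL D c‖) ⟨c₀, mem_filter.2 ⟨mem_univ _, hc₀⟩⟩
      rw [mem_filter] at hc₁
      exact ⟨‖SL D c₁‖, norm_nonneg _, fun c hc => h3 c (mem_filter.2 ⟨mem_univ _, hc⟩),
        laurent D hPD c₁ hc₁.2⟩
    · push Not at hne
      refine ⟨0, le_rfl, fun c hc => absurd (hne c) hc, ?_⟩
      rw [zero_pow (by omega), mul_zero]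
      positivity
  -- zeros
  obtain ⟨j₀, hj₀⟩ : ∃ j, g j ≠ 0 := by
    by_contra h3
    push Not at h3
    exact hg0 (funext h3)
  have hd' : ∀ j, d j ∈ KK D := fun j => mem_KK.2 (hd j)
  have hE : ((s.filter (fun x => cf D v d g x = 0)).card : ℝ) ≤ s.card * (P : ℝ) ^ (-η) := by
    have h4 := hz (fun j => if d j = d j₀ then g j else 0) (by
      intro h5
      have := congrFun h5 j₀
      simp only [if_true, Pi.zero_apply] at this
      exact hj₀ this) (by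
      intro i j hi hj
      have hi' : d i = d j₀ := by
        by_contra h5
        exact hi (if_neg h5)
      have hj' : d j = d j₀ := by
        by_contra h5
        exact hj (if_neg h5)
      rw [hi', hj'])
    refine le_trans ?_ h4
    refine Nat.cast_le.2 (card_le_card ?_)
    intro x hx
    rw [mem_filter] at hx ⊢
    refine ⟨hx.1, ?_⟩
    have h5 := congrFun hx.2 ⟨d j₀, hd' j₀⟩
    unfold cf at h5
    simp only [Pi.zero_apply] at h5
    rw [sum_filter] at h5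
    refine Eq.trans (sum_congr rfl fun j _ => ?_) h5
    rw [ite_mul, zero_mul]
  have h6 := fourier D s act hact v d hd' hv g _ B hB hB0 hE
  have h7 := h2 P hP2 hp.two_le s.card B (Nat.cast_nonneg _) hB0 hB2
  exact le_of_mul_le_mul_left (h6.trans h7) hpos

end Pool.Agent.J4.H53.WM
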