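import Pool.Agent.J4.H53.WM.Laurent

set_option autoImplicit false

/-! # Exponential sums with Laurent polynomials: the bound -/

namespace Pool.Agent.J4.H53.WM

open Finset

variable {P : ℕ} [Fact P.Prime]

lemma ph_mul (D : ℕ) (t u : (ZMod P)ˣ) (k : KK D) : ph D (t * u) k = ph D t k * ph D u k := by
  unfold ph
  rw [mul_zpow, Units.val_mul]

/-- the sum -/
noncomputable def SL (D : ℕ) (c : KK D → ZMod P) : ℂ :=
  ∑ t : (ZMod P)ˣ, (ZMod.stdAddChar (∑ k, c k * ph D t k) : ℂ)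

lemma SL_scale (D : ℕ) (c : KK D → ZMod P) (l : (ZMod P)ˣ) :
    SL D (fun k => c k * ph D l k) = SL D c := by
  unfold SL
  refine Fintype.sum_equiv (Equiv.mulLeft l) _ _ fun t => ?_
  congr 1
  refine sum_congr rfl fun k _ => ?_
  rw [Equiv.coe_mulLeft, ph_mul, mul_assoc]

lemma fib (D : ℕ) (c : KK D → ZMod P) (hc : c ≠ 0) (b : KK D → ZMod P) :
    (univ.filter (fun l : (ZMod P)ˣ => (fun k => c k * ph D l k) = b)).card ≤ D := by
  classical
  obtain ⟨k, hk⟩ : ∃ k, c k ≠ 0 := by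
    by_contra h
    push Not at h
    exact hc (funext h)
  have hk' := mem_KK.1 k.2
  rcases (univ.filter (fun l : (ZMod P)ˣ => (fun k => c k * ph D l k) = b)).eq_empty_or_nonempty
    with h | ⟨m, hm⟩
  · rw [h]; simp
  · have h0 : 0 < (k : ℤ).natAbs := Int.natAbs_pos.2 hk'.1
    have h1 := IsCyclic.card_pow_eq_one_le (α := (ZMod P)ˣ) h0
    have h2 : (k : ℤ).natAbs ≤ D := by
      have := hk'.2
      rw [Int.abs_eq_natAbs] at this
      exact_mod_cast this
    refine le_trans ?_ (h1.trans h2)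
    refine card_le_card_of_injOn (fun l => l / m) ?_ ?_
    · intro l hl
      rw [mem_coe, mem_filter] at hl ⊢
      rw [mem_filter] at hm
      refine ⟨mem_univ _, ?_⟩
      have h3 := congrFun (hl.2.trans hm.2.symm) k
      have h4 : ph D l k = ph D m k := mul_left_cancel₀ hk h3
      have h5 : l ^ (k : ℤ) = m ^ (k : ℤ) := Units.ext h4
      have h6 : (l / m) ^ (k : ℤ) = 1 := by rw [div_zpow, h5, div_self']
      rcases Int.natAbs_eq (k : ℤ) with h7 | h7
      · rw [h7, zpow_natCast] at h6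
        exact h6
      · rw [h7, zpow_neg, zpow_natCast, inv_eq_one] at h6
        exact h6
    · intro l _ l' _ h
      exact div_left_injective h

lemma sum_fib {α β : Type} [Fintype α] [Fintype β] [DecidableEq β] (F : α → β) (g : β → ℝ)
    (hg : ∀ b, 0 ≤ g b) (D : ℕ) (h : ∀ b, (univ.filter (fun a => F a = b)).card ≤ D) :
    ∑ a, g (F a) ≤ D * ∑ b, g b := by
  rw [← sum_fiberwise (s := (univ : Finset α)) (g := F) (f := fun a => g (F a)), mul_sum]
  refine sum_le_sum fun b _ => ?_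
  calc ∑ a ∈ univ.filter (fun a => F a = b), g (F a)
      = ∑ a ∈ univ.filter (fun a => F a = b), g b := by
        refine sum_congr rfl fun a ha => ?_
        rw [(mem_filter.1 ha).2]
    _ = ((univ.filter (fun a => F a = b)).card : ℝ) * g b := by
        rw [sum_const, nsmul_eq_mul]
    _ ≤ D * g b := mul_le_mul_of_nonneg_right (by exact_mod_cast h b) (hg b)

/-- the constant -/
def cst (D : ℕ) : ℕ := 2 * D * ((D + 1) * (2 * D) ^ (2 * D))

/-- **Power saving for sums of Laurent polynomials** (Mordell's method). -/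
theorem laurent (D : ℕ) (hP : D < P) (c : KK D → ZMod P) (hc : c ≠ 0) :
    (P : ℝ) * ‖SL D c‖ ^ (4 * D) ≤ cst D * (P : ℝ) ^ (4 * D) := by
  classical
  have hp : P.Prime := Fact.out
  have h2 : (2 : ℝ) ≤ P := by exact_mod_cast hp.two_le
  have h1 : ((P : ℝ) - 1) * ‖SL D c‖ ^ (4 * D) ≤
      D * ∑ b : KK D → ZMod P, ‖SL D b‖ ^ (4 * D) := by
    have h3 := sum_fib (fun l : (ZMod P)ˣ => (fun k => c k * ph D l k))
      (fun b : KK D → ZMod P => ‖SL D b‖ ^ (4 * D)) (fun b => by positivity) D (fib D c hc)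
    simp_rw [SL_scale] at h3
    rw [sum_const, card_univ, card_units, nsmul_eq_mul, Nat.cast_sub hp.one_le, Nat.cast_one] at h3
    exact h3
  have h4 : ∑ b : KK D → ZMod P, ‖SL D b‖ ^ (4 * D) ≤
      (P : ℝ) ^ (2 * D) * (((D + 1) * (2 * D) ^ (2 * D) * P ^ (2 * D) : ℕ) : ℝ) := by
    have h5 := moment (P := P) (ph (P := P) D) (2 * D)
    rw [card_KK] at h5
    have e : 4 * D = 2 * (2 * D) := by ring
    unfold SL
    rw [e, h5]
    refine mul_le_mul_of_nonneg_left ?_ (by positivity)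
    exact_mod_cast sols_card D hP
  have h6 : (P : ℝ) * ‖SL D c‖ ^ (4 * D) ≤ 2 * (((P : ℝ) - 1) * ‖SL D c‖ ^ (4 * D)) := by
    have : 0 ≤ ‖SL D c‖ ^ (4 * D) := by positivity
    nlinarith
  refine h6.trans ?_
  calc 2 * (((P : ℝ) - 1) * ‖SL D c‖ ^ (4 * D))
      ≤ 2 * (D * ((P : ℝ) ^ (2 * D) * (((D + 1) * (2 * D) ^ (2 * D) * P ^ (2 * D) : ℕ) : ℝ))) := by
        refine mul_le_mul_of_nonneg_left (h1.trans ?_) (by norm_num)
        exact mul_le_mul_of_nonneg_left h4 (Nat.cast_nonneg _)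
    _ = cst D * (P : ℝ) ^ (4 * D) := by
        unfold cst
        push_cast
        ring

end Pool.Agent.J4.H53.WM
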