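import Pool.Agent.J4.H53.WM.Zeros

set_option autoImplicit false

/-! # A linear form which separates finitely many exponent vectors -/

namespace Pool.Agent.J4.H53.WM

open Finset

variable {k : ℕ}

/-- the exponent vector of a word -/
def expo (w : FreeGroup (Fin k)) (j : Fin k) : ℤ :=
  (FreeGroup.lift (fun i => Multiplicative.ofAdd (if i = j then (1 : ℤ) else 0)) w).toAdd

lemma expo_one (j : Fin k) : expo (1 : FreeGroup (Fin k)) j = 0 := by
  unfold expo; rw [map_one]; rfl

lemma expo_mul (w w' : FreeGroup (Fin k)) (j : Fin k) :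
    expo (w * w') j = expo w j + expo w' j := by
  unfold expo; rw [map_mul]; rfl

lemma ev_eq (l : Fin k → ℤ) (w : FreeGroup (Fin k)) :
    (ev l w).toAdd = ∑ j, l j * expo w j := by
  induction w using FreeGroup.induction_on with
  | C1 => simp [expo_one]
  | of i => simp [ev, expo]
  | inv_of i _ => simp [ev, expo]
  | mul w w' h h' =>
    rw [map_mul, toAdd_mul, h, h', ← sum_add_distrib]
    refine sum_congr rfl fun j _ => ?_
    rw [expo_mul]
    ring

lemma exists_form (V : Finset (Fin k → ℤ)) (hV : ∀ v ∈ V, v ≠ 0) :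
    ∃ l : Fin k → ℤ, ∀ v ∈ V, ∑ j, l j * v j ≠ 0 := by
  classical
  have h1 : ∀ v : Fin k → ℤ, v ≠ 0 →
      (∑ j : Fin k, Polynomial.C (v j) * Polynomial.X ^ (j : ℕ) : Polynomial ℤ) ≠ 0 := by
    intro v hv h0
    apply hv
    funext j
    have h2 := congrArg (fun p => Polynomial.coeff p (j : ℕ)) h0
    simp only [Polynomial.finsetSum_coeff, Polynomial.coeff_C_mul, Polynomial.coeff_X_pow,
      Polynomial.coeff_zero] at h2
    rw [sum_eq_single j] at h2
    · simpa using h2
    · intro i _ hi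
      rw [if_neg (fun h => hi (Fin.ext h.symm)), mul_zero]
    · intro h; exact absurd (mem_univ _) h
  have h3 : (∏ v ∈ V, (∑ j : Fin k, Polynomial.C (v j) * Polynomial.X ^ (j : ℕ) :
      Polynomial ℤ)) ≠ 0 := prod_ne_zero_iff.2 fun v hv => h1 v (hV v hv)
  obtain ⟨N, hN⟩ : ∃ N : ℤ, Polynomial.eval N (∏ v ∈ V,
      (∑ j : Fin k, Polynomial.C (v j) * Polynomial.X ^ (j : ℕ) : Polynomial ℤ)) ≠ 0 := by
    by_contra h
    push Not at h
    exact h3 (Polynomial.funext fun x => by rw [h x, Polynomial.eval_zero])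
  rw [Polynomial.eval_prod, prod_ne_zero_iff] at hN
  refine ⟨fun j => N ^ (j : ℕ), fun v hv => ?_⟩
  have h4 := hN v hv
  rw [Polynomial.eval_finsetSum] at h4
  have e : ∑ j : Fin k, N ^ (j : ℕ) * v j =
      ∑ i : Fin k, Polynomial.eval N (Polynomial.C (v i) * Polynomial.X ^ (i : ℕ)) := by
    refine sum_congr rfl fun j _ => ?_
    rw [Polynomial.eval_mul, Polynomial.eval_C, Polynomial.eval_pow, Polynomial.eval_X, mul_comm]
  rw [e]
  exact h4

/-- separation of words -/
theorem exists_sep {r : ℕ} (w : Fin r → FreeGroup (Fin k)) (h0 : ∀ i, expo (w i) ≠ 0)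
    (h1 : Function.Injective fun i => expo (w i)) :
    ∃ l : Fin k → ℤ, (∀ i, (ev l (w i)).toAdd ≠ 0) ∧
      Function.Injective fun i => (ev l (w i)).toAdd := by
  classical
  obtain ⟨l, hl⟩ := exists_form
    ((univ : Finset (Fin r)).image (fun i => expo (w i)) ∪
      ((univ : Finset (Fin r × Fin r)).filter (fun x => x.1 ≠ x.2)).image
        (fun x => expo (w x.1) - expo (w x.2))) (by
      intro v hv
      rw [mem_union, mem_image, mem_image] at hv
      rcases hv with ⟨i, -, rfl⟩ | ⟨x, hx, rfl⟩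
      · exact h0 i
      · rw [mem_filter] at hx
        exact sub_ne_zero.2 fun h => hx.2 (h1 h))
  refine ⟨l, fun i => ?_, fun i i' h => ?_⟩
  · rw [ev_eq]
    exact hl _ (mem_union_left _ (mem_image_of_mem _ (mem_univ i)))
  · by_contra hne
    have h2 := hl (expo (w i) - expo (w i')) (mem_union_right _ (mem_image.2
      ⟨(i, i'), mem_filter.2 ⟨mem_univ _, hne⟩, rfl⟩))
    apply h2
    simp only [ev_eq] at h
    simp_rw [Pi.sub_apply, mul_sub, sum_sub_distrib]
    rw [h, sub_self]

end Pool.Agent.J4.H53.WM
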