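import Pool.Agent.J4.H53.WM.Abs
import Pool.Agent.J4.H53.WM.Sep

set_option autoImplicit false

/-! # Record prime gaps at the entries of words in matrices and at the values of forms -/

namespace Pool.Agent.J4.H53.WM

open Finset Filter
open Pool.Agent.N825.FC (Many crit Mid)

section Scalar

variable {P : ℕ} [Fact P.Prime] {n k : ℕ}

/-- scalar matrices -/
def zs (n : ℕ) (t : (ZMod P)ˣ) : GL (Fin n) (ZMod P) :=
  Units.map (Matrix.scalar (Fin n) : ZMod P →+* Matrix (Fin n) (Fin n) (ZMod P)).toMonoidHom t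

lemma zs_comm (t : (ZMod P)ˣ) (M : GL (Fin n) (ZMod P)) : Commute (zs n t) M := by
  apply Units.ext
  exact Matrix.scalar_commute (t : ZMod P) (fun r => Commute.all _ _) M.1

lemma zs_pow (t : (ZMod P)ˣ) (N : ℤ) : zs n t ^ N = zs n (t ^ N) := (map_zpow _ t N).symm

lemma zs_mul_apply (t : (ZMod P)ˣ) (M : GL (Fin n) (ZMod P)) (a b : Fin n) :
    ((zs n t * M : GL (Fin n) (ZMod P)) : Matrix (Fin n) (Fin n) (ZMod P)) a b =
      (t : ZMod P) * (M : Matrix (Fin n) (Fin n) (ZMod P)) a b := by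
  change ((Matrix.scalar (Fin n) (t : ZMod P) : Matrix (Fin n) (Fin n) (ZMod P)) *
    (M : Matrix (Fin n) (Fin n) (ZMod P))) a b = _
  rw [Matrix.scalar_apply, Matrix.diagonal_mul]

/-- scaling of a tuple of matrices -/
def actM (l : Fin k → ℤ) (t : (ZMod P)ˣ) (X : Fin k → GL (Fin n) (ZMod P)) :
    Fin k → GL (Fin n) (ZMod P) := fun i => zs n t ^ (l i) * X i

lemma actM_bij (l : Fin k → ℤ) (t : (ZMod P)ˣ) :
    Function.Bijective (actM (n := n) l t) :=
  (Equiv.piCongrRight (fun i => Equiv.mulLeft (zs n t ^ (l i)))).bijective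

lemma lift_actM (l : Fin k → ℤ) (t : (ZMod P)ˣ) (X : Fin k → GL (Fin n) (ZMod P))
    (w : FreeGroup (Fin k)) :
    FreeGroup.lift (actM l t X) w = zs n t ^ (ev l w).toAdd * FreeGroup.lift X w := by
  let Φ : FreeGroup (Fin k) →* GL (Fin n) (ZMod P) :=
    { toFun := fun w => zs n t ^ (ev l w).toAdd * FreeGroup.lift X w
      map_one' := by simp
      map_mul' := by
        intro a b
        rw [(ev l).map_mul, (FreeGroup.lift X).map_mul, toAdd_mul, zpow_add]
        have h := ((zs_comm t (FreeGroup.lift X a)).zpow_left (ev l b).toAdd).eq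
        calc zs n t ^ (ev l a).toAdd * zs n t ^ (ev l b).toAdd *
              (FreeGroup.lift X a * FreeGroup.lift X b)
            = zs n t ^ (ev l a).toAdd * (zs n t ^ (ev l b).toAdd * FreeGroup.lift X a) *
              FreeGroup.lift X b := by group
          _ = zs n t ^ (ev l a).toAdd * (FreeGroup.lift X a * zs n t ^ (ev l b).toAdd) *
              FreeGroup.lift X b := by rw [h]
          _ = _ := by group }
  have h : FreeGroup.lift (actM l t X) = Φ := by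
    apply FreeGroup.ext_hom
    intro i
    change FreeGroup.lift (actM l t X) (FreeGroup.of i) =
      zs n t ^ (ev l (FreeGroup.of i)).toAdd * FreeGroup.lift X (FreeGroup.of i)
    rw [FreeGroup.lift_apply_of, FreeGroup.lift_apply_of]
    unfold ev
    rw [FreeGroup.lift_apply_of, toAdd_ofAdd]
    rfl
  rw [h]
  rfl

end Scalar

/-- **Words in matrices.** -/
theorem wordsSet (n k r m : ℕ) (hn : 1 ≤ n) (hm : 1 ≤ m) (w : Fin r → FreeGroup (Fin k))
    (h0 : ∀ i, expo (w i) ≠ 0) (h1 : Function.Injective fun i => expo (w i))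
    (ε : ℝ) (hε : 0 < ε) (hε1 : ε ≤ 1) :
    ∃ κ : ℝ, 0 < κ ∧ ∃ δ : ℝ, 0 < δ ∧ ∃ P₀ : ℝ, ∀ (P : ℕ) [Fact P.Prime], P₀ ≤ P →
    ∀ s : Finset (Fin k → GL (Fin n) (ZMod P)),
    (∀ X ∈ s, ∀ c : Fin k → (ZMod P)ˣ, (fun i => zs n (c i) * X i) ∈ s) →
    (P : ℝ) ^ (((k * n ^ 2 : ℕ) : ℝ) - 1 + ε) ≤ s.card →
    ∀ (T : (Fin r → Matrix (Fin n) (Fin n) (ZMod P)) →ₗ[ZMod P] (Fin m → ZMod P))
      (C : Fin m → ZMod P), Function.Surjective T →
    Many κ ε δ P s
      (fun X => T (fun i => (FreeGroup.lift X (w i) : GL (Fin n) (ZMod P))) + C) := by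
  classical
  obtain ⟨l, hl0, hl1⟩ := exists_sep w h0 h1
  set D : ℕ := 1 + ∑ i, (ev l (w i)).toAdd.natAbs with hD
  set K : ℕ := n * (∑ i, (w i).toWord.length) with hK
  have hDi : ∀ i, (ev l (w i)).toAdd.natAbs ≤ ∑ i, (ev l (w i)).toAdd.natAbs := fun i =>
    single_le_sum (f := fun i => (ev l (w i)).toAdd.natAbs) (fun _ _ => Nat.zero_le _)
      (mem_univ i)
  obtain ⟨κ, hκ, δ, hδ, P₁, h⟩ := abs (J := Fin r × Fin n × Fin n) m D hm (by omega) (ε / 2) ε
    (by positivity) hε hε1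
  have t1 : Tendsto (fun x : ℝ => x ^ (ε / 2)) atTop atTop := tendsto_rpow_atTop (by positivity)
  obtain ⟨P₂, hP₂⟩ := eventually_atTop.1 (t1.eventually_ge_atTop (K : ℝ))
  refine ⟨κ, hκ, δ, hδ, max P₁ (max (D + 1) P₂), ?_⟩
  intro P _ hP s hs hcard T C hT
  have hp : P.Prime := Fact.out
  have hP0 : P₁ ≤ P := (le_max_left _ _).trans hP
  have hPD : D + 1 ≤ P := by
    have := (le_max_left _ _).trans ((le_max_right _ _).trans hP)
    exact_mod_cast this
  have hPpos : (0 : ℝ) < P := by exact_mod_cast hp.pos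
  have hne : s.Nonempty := by
    rw [← card_pos]
    have : (0 : ℝ) < s.card := lt_of_lt_of_le (by positivity) hcard
    exact_mod_cast this
  let L : (Fin r × Fin n × Fin n → ZMod P) →ₗ[ZMod P] (Fin r → Matrix (Fin n) (Fin n) (ZMod P)) :=
    { toFun := fun f i => Matrix.of fun a b => f (i, a, b)
      map_add' := fun _ _ => rfl
      map_smul' := fun _ _ => rfl }
  have hL : Function.Surjective L := fun M => ⟨fun j => M j.1 j.2.1 j.2.2, rfl⟩
  have hact : ∀ X ∈ s, ∀ t : (ZMod P)ˣ, actM l t X ∈ s := by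
    intro X hX t
    have h3 := hs X hX (fun i => t ^ (l i))
    unfold actM
    simp_rw [zs_pow]
    exact h3
  have h2 := h P hP0 (Fin k → GL (Fin n) (ZMod P)) s (actM l)
    (fun X j => ((FreeGroup.lift X (w j.1) : GL (Fin n) (ZMod P)) :
      Matrix (Fin n) (Fin n) (ZMod P)) j.2.1 j.2.2)
    (fun j => (ev l (w j.1)).toAdd) hne ?_ ?_ ?_ ?_ (T.comp L) C (hT.comp hL)
  · exact h2
  · intro t
    refine ⟨fun X hX => hact X hX t, (actM_bij l t).injective.injOn, fun X hX => ?_⟩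
    refine ⟨actM l t⁻¹ X, hact X hX t⁻¹, ?_⟩
    funext i
    unfold actM
    rw [zs_pow, zs_pow, ← mul_assoc]
    have h3 : zs n (t ^ l i) * zs n ((t⁻¹) ^ l i) = (1 : GL (Fin n) (ZMod P)) := by
      unfold zs
      rw [← map_mul, inv_zpow, mul_inv_cancel, map_one]
    rw [h3, one_mul]
  · intro j
    refine ⟨hl0 _, ?_⟩
    rw [Int.abs_eq_natAbs]
    have := hDi j.1
    exact_mod_cast (by omega : (ev l (w j.1)).toAdd.natAbs ≤ D)
  · intro t X _ j
    simp only [lift_actM, zs_pow]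
    exact zs_mul_apply _ _ _ _
  · intro g hg hdeg
    obtain ⟨j₀, hj₀⟩ : ∃ j, g j ≠ 0 := by
      by_contra h3
      push Not at h3
      exact hg (funext h3)
    have hsup : ∀ j, j.1 ≠ j₀.1 → g j = 0 := by
      intro j hj
      by_contra h4
      exact hj (hl1 (hdeg j j₀ h4 hj₀))
    have hz := zeros (P := P) hn l (w j₀.1) (hl0 _) (by have := hDi j₀.1; omega)
      (fun a b => g (j₀.1, a, b)) (by
        intro h4
        exact hj₀ (congrFun (congrFun h4 j₀.2.1) j₀.2.2))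
    have e1 : (s.filter (fun X : Fin k → GL (Fin n) (ZMod P) =>
        ∑ j, g j * ((FreeGroup.lift X (w j.1) : GL (Fin n) (ZMod P)) :
          Matrix (Fin n) (Fin n) (ZMod P)) j.2.1 j.2.2 = 0)) ⊆
        (univ.filter (fun X : Fin k → GL (Fin n) (ZMod P) =>
          lf (fun a b => g (j₀.1, a, b)) (FreeGroup.lift X (w j₀.1) : GL (Fin n) (ZMod P)) = 0)) := by
      intro X hX
      rw [mem_filter] at hX ⊢
      refine ⟨mem_univ _, ?_⟩
      rw [← hX.2]
      unfold lf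
      rw [Fintype.sum_prod_type, sum_eq_single j₀.1]
      · rw [Fintype.sum_prod_type]
      · intro i _ hi
        refine sum_eq_zero fun c _ => ?_
        rw [hsup (i, c) hi, zero_mul]
      · intro h; exact absurd (mem_univ _) h
    set Z := (s.filter (fun X : Fin k → GL (Fin n) (ZMod P) =>
        ∑ j, g j * ((FreeGroup.lift X (w j.1) : GL (Fin n) (ZMod P)) :
          Matrix (Fin n) (Fin n) (ZMod P)) j.2.1 j.2.2 = 0)).card with hZ
    have h7 : Z * P ≤ K * P ^ (k * n ^ 2) := by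
      calc Z * P ≤ n * (w j₀.1).toWord.length * P ^ (k * (n * n)) :=
            (Nat.mul_le_mul_right _ (card_le_card e1)).trans hz
        _ ≤ n * (∑ i, (w i).toWord.length) * P ^ (k * (n * n)) := by
            refine Nat.mul_le_mul_right _ (Nat.mul_le_mul_left _ ?_)
            exact single_le_sum (f := fun i => (w i).toWord.length) (fun _ _ => Nat.zero_le _)
              (mem_univ j₀.1)
        _ = _ := by rw [hK, sq]
    have h8 : (Z : ℝ) * P ≤ K * (P : ℝ) ^ (k * n ^ 2) := by exact_mod_cast h7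
    have h9 : (K : ℝ) ≤ (P : ℝ) ^ (ε / 2) :=
      hP₂ P ((le_max_right _ _).trans ((le_max_right _ _).trans hP))
    have h10 : (P : ℝ) ^ (k * n ^ 2) =
        P * ((P : ℝ) ^ (((k * n ^ 2 : ℕ) : ℝ) - 1 + ε) * (P : ℝ) ^ (-ε)) := by
      rw [← Real.rpow_add hPpos]
      have e2 : ((k * n ^ 2 : ℕ) : ℝ) - 1 + ε + -ε = ((k * n ^ 2 : ℕ) : ℝ) - 1 := by ring
      rw [e2, Real.rpow_sub_one hPpos.ne', Real.rpow_natCast]
      field_simp
    have h11 : (Z : ℝ) * P ≤ ((P : ℝ) ^ (ε / 2) * ((s.card : ℝ) * (P : ℝ) ^ (-ε))) * P := by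
      rw [h10] at h8
      refine h8.trans ?_
      calc (K : ℝ) * (P * ((P : ℝ) ^ (((k * n ^ 2 : ℕ) : ℝ) - 1 + ε) * (P : ℝ) ^ (-ε)))
          ≤ (P : ℝ) ^ (ε / 2) * (P * ((s.card : ℝ) * (P : ℝ) ^ (-ε))) := by
            refine mul_le_mul h9 ?_ (by positivity) (by positivity)
            refine mul_le_mul_of_nonneg_left ?_ hPpos.le
            exact mul_le_mul_of_nonneg_right hcard (by positivity)
        _ = _ := by ring
    refine (le_of_mul_le_mul_right h11 hPpos).trans (le_of_eq ?_)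
    have e1 : -(ε / 2) = ε / 2 + -ε := by ring
    rw [e1, Real.rpow_add hPpos]
    ring

/-- **Words in matrices**: all tuples. -/
theorem words (n k r m : ℕ) (hn : 1 ≤ n) (hm : 1 ≤ m) (w : Fin r → FreeGroup (Fin k))
    (h0 : ∀ i, expo (w i) ≠ 0) (h1 : Function.Injective fun i => expo (w i))
    (ε : ℝ) (hε : 0 < ε) (hε1 : ε ≤ 1) :
    ∃ κ : ℝ, 0 < κ ∧ ∃ δ : ℝ, 0 < δ ∧ ∃ P₀ : ℝ, ∀ (P : ℕ) [Fact P.Prime], P₀ ≤ P →
    ∀ (T : (Fin r → Matrix (Fin n) (Fin n) (ZMod P)) →ₗ[ZMod P] (Fin m → ZMod P))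
      (C : Fin m → ZMod P), Function.Surjective T →
    Many κ ε δ P (univ : Finset (Fin k → GL (Fin n) (ZMod P)))
      (fun X => T (fun i => (FreeGroup.lift X (w i) : GL (Fin n) (ZMod P))) + C) := by
  classical
  obtain ⟨κ, hκ, δ, hδ, P₁, h⟩ := wordsSet n k r m hn hm w h0 h1 (ε / 2) (by positivity)
    (by linarith)
  have t1 : Tendsto (fun x : ℝ => x ^ (1 - ε / 2)) atTop atTop :=
    tendsto_rpow_atTop (by linarith)
  obtain ⟨P₂, hP₂⟩ := eventually_atTop.1 (t1.eventually_ge_atTop (((2 ^ n) ^ k : ℕ) : ℝ))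
  refine ⟨κ, hκ, δ, hδ, max P₁ P₂, ?_⟩
  intro P _ hP T C hT
  have hp : P.Prime := Fact.out
  have hPpos : (0 : ℝ) < P := by exact_mod_cast hp.pos
  have hP1 : (1 : ℝ) ≤ P := by exact_mod_cast hp.one_le
  refine (h P ((le_max_left _ _).trans hP) univ (fun _ _ _ => mem_univ _) ?_ T C hT).mono hP1
    (by linarith)
  have h5 : (univ : Finset (Fin k → GL (Fin n) (ZMod P))).card =
      (Fintype.card (GL (Fin n) (ZMod P))) ^ k := by
    rw [card_univ, Fintype.card_fun, Fintype.card_fin]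
  have h6 : P ^ (k * n ^ 2) ≤ (2 ^ n) ^ k * (Fintype.card (GL (Fin n) (ZMod P))) ^ k := by
    rw [← mul_pow, mul_comm k, pow_mul, sq]
    exact Nat.pow_le_pow_left card_GL k
  have h7 : (P : ℝ) ^ (k * n ^ 2) ≤ (((2 ^ n) ^ k : ℕ) : ℝ) *
      ((univ : Finset (Fin k → GL (Fin n) (ZMod P))).card : ℝ) := by
    rw [h5]
    exact_mod_cast h6
  have h8 : (((2 ^ n) ^ k : ℕ) : ℝ) ≤ (P : ℝ) ^ (1 - ε / 2) := hP₂ P ((le_max_right _ _).trans hP)
  have h9 : (P : ℝ) ^ (1 - ε / 2) * (P : ℝ) ^ (((k * n ^ 2 : ℕ) : ℝ) - 1 + ε / 2) =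
      (P : ℝ) ^ (k * n ^ 2) := by
    rw [← Real.rpow_add hPpos]
    have e2 : 1 - ε / 2 + (((k * n ^ 2 : ℕ) : ℝ) - 1 + ε / 2) = ((k * n ^ 2 : ℕ) : ℝ) := by ring
    rw [e2, Real.rpow_natCast]
  have h10 : (0 : ℝ) < (P : ℝ) ^ (1 - ε / 2) := by positivity
  refine le_of_mul_le_mul_left ?_ h10
  rw [h9]
  refine h7.trans ?_
  exact mul_le_mul_of_nonneg_right h8 (Nat.cast_nonneg _)

lemma eval_scale {P : ℕ} {N e : ℕ} {F : MvPolynomial (Fin N) (ZMod P)} (hF : F.IsHomogeneous e)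
    (c : ZMod P) (x : Fin N → ZMod P) :
    MvPolynomial.eval (fun i => c * x i) F = c ^ e * MvPolynomial.eval x F := by
  rw [MvPolynomial.eval_eq', MvPolynomial.eval_eq', mul_sum]
  refine sum_congr rfl fun d hd => ?_
  have h1 : ∑ i, d i = e := by
    have h2 := hF (MvPolynomial.mem_support_iff.1 hd)
    rw [← h2, Finsupp.weight_apply, Finsupp.sum_fintype]
    · simp
    · simp
  simp_rw [mul_pow]
  rw [prod_mul_distrib, prod_pow_eq_pow_sum, h1]
  ring

/-- **Forms on cones.** -/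
theorem forms (N r m D : ℕ) (hm : 1 ≤ m) (ε : ℝ) (hε : 0 < ε) (hε1 : ε ≤ 1) :
    ∃ κ : ℝ, 0 < κ ∧ ∃ δ : ℝ, 0 < δ ∧ ∃ P₀ : ℝ, ∀ (P : ℕ) [Fact P.Prime], P₀ ≤ P →
    ∀ (s : Finset (Fin N → ZMod P)), (∀ x ∈ s, ∀ t : ZMod P, t ≠ 0 → t • x ∈ s) →
    (P : ℝ) ^ ((N : ℝ) - 1 + ε) ≤ s.card →
    ∀ (F : Fin r → MvPolynomial (Fin N) (ZMod P)) (e : Fin r → ℕ),
    (∀ j, (F j).IsHomogeneous (e j) ∧ 1 ≤ e j ∧ e j ≤ D) → LinearIndependent (ZMod P) F →
    ∀ (T : (Fin r → ZMod P) →ₗ[ZMod P] (Fin m → ZMod P)) (C : Fin m → ZMod P),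
    Function.Surjective T →
    Many κ ε δ P s (fun x => T (fun j => MvPolynomial.eval x (F j)) + C) := by
  classical
  obtain ⟨κ, hκ, δ, hδ, P₁, h⟩ := abs (J := Fin r) m (D + 1) hm (by omega) (ε / 2) ε
    (by positivity) hε hε1
  have t1 : Tendsto (fun x : ℝ => x ^ (ε / 2)) atTop atTop := tendsto_rpow_atTop (by positivity)
  obtain ⟨P₂, hP₂⟩ := eventually_atTop.1 (t1.eventually_ge_atTop (D : ℝ))
  refine ⟨κ, hκ, δ, hδ, max P₁ P₂, ?_⟩
  intro P _ hP s hs hcard F e hF hli T C hT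
  have hp : P.Prime := Fact.out
  have hPpos : (0 : ℝ) < P := by exact_mod_cast hp.pos
  have hscal : ∀ x ∈ s, ∀ t : (ZMod P)ˣ, (fun i => (t : ZMod P) * x i) ∈ s := fun x hx t =>
    hs x hx t t.ne_zero
  have hne : s.Nonempty := by
    rw [← card_pos]
    have : (0 : ℝ) < s.card := lt_of_lt_of_le (by positivity) hcard
    exact_mod_cast this
  refine h P ((le_max_left _ _).trans hP) _ s (fun t x i => (t : ZMod P) * x i)
    (fun x j => MvPolynomial.eval x (F j)) (fun j => (e j : ℤ)) hne ?_ ?_ ?_ ?_ T C hT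
  · intro t
    refine ⟨fun x hx => hscal x hx t, ?_, ?_⟩
    · intro x _ y _ hxy
      funext i
      exact mul_left_cancel₀ t.ne_zero (congrFun hxy i)
    · intro x hx
      refine ⟨fun i => ((t⁻¹ : (ZMod P)ˣ) : ZMod P) * x i, hscal x hx t⁻¹, ?_⟩
      funext i
      change (t : ZMod P) * (((t⁻¹ : (ZMod P)ˣ) : ZMod P) * x i) = x i
      rw [← mul_assoc, Units.mul_inv, one_mul]
  · intro j
    have := hF j
    refine ⟨by omega, ?_⟩
    rw [Nat.abs_cast]
    exact_mod_cast (by omega : e j ≤ D + 1)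
  · intro t x _ j
    rw [zpow_natCast, Units.val_pow_eq_pow_val]
    exact eval_scale (hF j).1 _ _
  · intro g hg _
    set Φ : MvPolynomial (Fin N) (ZMod P) := ∑ j, g j • F j with hΦ
    have h3 : Φ ≠ 0 := by
      intro h4
      have h5 := Fintype.linearIndependent_iff.1 hli g h4
      exact hg (funext h5)
    have h4 : Φ.totalDegree ≤ D := by
      rw [hΦ]
      refine MvPolynomial.totalDegree_finsetSum_le fun j _ => ?_
      exact (MvPolynomial.totalDegree_smul_le _ _).trans ((hF j).1.totalDegree_le.trans (hF j).2.2)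
    have h5 := sz Φ h3 D h4
    rw [Fintype.card_fin] at h5
    have h6 : (s.filter (fun x => ∑ j, g j * MvPolynomial.eval x (F j) = 0)).card ≤
        (univ.filter (fun x : Fin N → ZMod P => MvPolynomial.eval x Φ = 0)).card := by
      refine card_le_card fun x hx => ?_
      rw [mem_filter] at hx ⊢
      refine ⟨mem_univ _, ?_⟩
      rw [hΦ, map_sum, ← hx.2]
      refine sum_congr rfl fun j _ => ?_
      rw [MvPolynomial.smul_eval]
    have h7 : ((s.filter (fun x => ∑ j, g j * MvPolynomial.eval x (F j) = 0)).card : ℝ) * P ≤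
        D * (P : ℝ) ^ N := by
      exact_mod_cast (Nat.mul_le_mul_right _ h6).trans h5
    have h8 : (D : ℝ) ≤ (P : ℝ) ^ (ε / 2) := hP₂ P ((le_max_right _ _).trans hP)
    have h9 : (P : ℝ) ^ N = P * ((P : ℝ) ^ ((N : ℝ) - 1 + ε) * (P : ℝ) ^ (-ε)) := by
      rw [← Real.rpow_add hPpos]
      have e2 : (N : ℝ) - 1 + ε + -ε = (N : ℝ) - 1 := by ring
      rw [e2, Real.rpow_sub_one hPpos.ne', Real.rpow_natCast]
      field_simp
    have h10 : ((s.filter (fun x => ∑ j, g j * MvPolynomial.eval x (F j) = 0)).card : ℝ) ≤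
        (P : ℝ) ^ (ε / 2) * ((s.card : ℝ) * (P : ℝ) ^ (-ε)) := by
      rw [h9] at h7
      have h11 : ((s.filter (fun x => ∑ j, g j * MvPolynomial.eval x (F j) = 0)).card : ℝ) * P ≤
          ((P : ℝ) ^ (ε / 2) * ((s.card : ℝ) * (P : ℝ) ^ (-ε))) * P := by
        refine h7.trans ?_
        calc (D : ℝ) * (P * ((P : ℝ) ^ ((N : ℝ) - 1 + ε) * (P : ℝ) ^ (-ε)))
            ≤ (P : ℝ) ^ (ε / 2) * (P * ((s.card : ℝ) * (P : ℝ) ^ (-ε))) := by
              refine mul_le_mul h8 ?_ (by positivity) (by positivity)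
              refine mul_le_mul_of_nonneg_left ?_ hPpos.le
              exact mul_le_mul_of_nonneg_right hcard (by positivity)
          _ = _ := by ring
      exact le_of_mul_le_mul_right h11 hPpos
    refine h10.trans (le_of_eq ?_)
    have e1 : -(ε / 2) = ε / 2 + -ε := by ring
    rw [e1, Real.rpow_add hPpos]
    ring

end Pool.Agent.J4.H53.WM
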