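import Pool.Agent.J4.H53.WM.Bound

set_option autoImplicit false

/-! # Fourier coefficients of families with a scaling -/

namespace Pool.Agent.J4.H53.WM

open Finset

variable {P : ℕ} [Fact P.Prime]

lemma norm_std (x : ZMod P) : ‖(ZMod.stdAddChar x : ℂ)‖ = 1 := AddChar.norm_apply _ _

section Scale

variable {ι J : Type} [Fintype J] [DecidableEq J]

/-- the coefficients -/
noncomputable def cf (D : ℕ) (v : ι → J → ZMod P) (d : J → ℤ) (h : J → ZMod P) (x : ι)
    (k : KK D) : ZMod P := ∑ j ∈ univ.filter (fun j => d j = k), h j * v x j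

lemma regroup (D : ℕ) (v : ι → J → ZMod P) (d : J → ℤ) (hd : ∀ j, d j ∈ KK D) (h : J → ZMod P)
    (x : ι) (t : (ZMod P)ˣ) :
    ∑ j, h j * (((t ^ (d j) : (ZMod P)ˣ) : ZMod P) * v x j) =
      ∑ k : KK D, cf D v d h x k * ph D t k := by
  classical
  unfold cf
  rw [← sum_fiberwise (s := (univ : Finset J)) (g := fun j => (⟨d j, hd j⟩ : KK D))]
  refine sum_congr rfl fun k _ => ?_
  rw [sum_mul]
  refine sum_congr ?_ fun j hj => ?_
  · ext j
    simp only [mem_filter, mem_univ, true_and]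
    exact ⟨fun e => congrArg Subtype.val e, fun e => Subtype.ext e⟩
  · rw [mem_filter] at hj
    unfold ph
    rw [hj.2]
    ring

/-- the Fourier coefficient of a family with a scaling -/
theorem fourier (D : ℕ) (s : Finset ι) (act : (ZMod P)ˣ → ι → ι)
    (hact : ∀ t, Set.BijOn (act t) s s) (v : ι → J → ZMod P) (d : J → ℤ) (hd : ∀ j, d j ∈ KK D)
    (hv : ∀ t, ∀ x ∈ s, ∀ j, v (act t x) j = ((t ^ (d j) : (ZMod P)ˣ) : ZMod P) * v x j)
    (h : J → ZMod P) (E B : ℝ) (hB : ∀ c : KK D → ZMod P, c ≠ 0 → ‖SL D c‖ ≤ B) (hB0 : 0 ≤ B)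
    (hE : ((s.filter (fun x => cf D v d h x = 0)).card : ℝ) ≤ E) :
    ((P : ℝ) - 1) * ‖∑ x ∈ s, (ZMod.stdAddChar (∑ j, h j * v x j) : ℂ)‖ ≤
      ((P : ℝ) - 1) * E + s.card * B := by
  classical
  have hp : P.Prime := Fact.out
  have hP1 : (0 : ℝ) ≤ (P : ℝ) - 1 := by
    have : (1 : ℝ) ≤ P := by exact_mod_cast hp.one_le
    linarith
  have h1 : ∀ t : (ZMod P)ˣ, ∑ x ∈ s, (ZMod.stdAddChar (∑ j, h j * v x j) : ℂ) =
      ∑ x ∈ s, (ZMod.stdAddChar (∑ k, cf D v d h x k * ph D t k) : ℂ) := by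
    intro t
    have h2 : ∑ x ∈ s, (ZMod.stdAddChar (∑ j, h j * v x j) : ℂ) =
        ∑ x ∈ s, (ZMod.stdAddChar (∑ j, h j * v (act t x) j) : ℂ) := by
      symm
      refine sum_nbij (act t) ?_ ?_ ?_ ?_
      · intro x hx
        exact (hact t).mapsTo hx
      · exact (hact t).injOn
      · exact (hact t).surjOn
      · intro x _
        rfl
    rw [h2]
    refine sum_congr rfl fun x hx => ?_
    rw [← regroup D v d hd h x t]
    congr 1
    refine sum_congr rfl fun j _ => ?_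
    rw [hv t x hx j]
  have h3 : (((P : ℝ) - 1 : ℝ) : ℂ) * ∑ x ∈ s, (ZMod.stdAddChar (∑ j, h j * v x j) : ℂ) =
      ∑ x ∈ s, SL D (cf D v d h x) := by
    unfold SL
    rw [sum_comm, ← sum_congr rfl fun t _ => h1 t, sum_const, card_univ, card_units,
      nsmul_eq_mul, Nat.cast_sub hp.one_le]
    push_cast
    ring
  have h4 : ((P : ℝ) - 1) * ‖∑ x ∈ s, (ZMod.stdAddChar (∑ j, h j * v x j) : ℂ)‖ =
      ‖∑ x ∈ s, SL D (cf D v d h x)‖ := by
    rw [← h3, norm_mul, Complex.norm_real, Real.norm_eq_abs, abs_of_nonneg hP1]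
  rw [h4]
  have h5 : ∀ x ∈ s, ‖SL D (cf D v d h x)‖ ≤
      (if cf D v d h x = 0 then ((P : ℝ) - 1) else 0) + B := by
    intro x _
    split_ifs with h6
    · have h7 : ‖SL D (cf D v d h x)‖ ≤ (P : ℝ) - 1 := by
        unfold SL
        refine (norm_sum_le _ _).trans ?_
        simp_rw [norm_std]
        rw [sum_const, card_univ, card_units, nsmul_eq_mul, mul_one, Nat.cast_sub hp.one_le,
          Nat.cast_one]
      linarith
    · rw [zero_add]
      exact hB _ h6
  refine (norm_sum_le _ _).trans ((sum_le_sum h5).trans ?_)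
  rw [sum_add_distrib, ← sum_filter, sum_const, sum_const, nsmul_eq_mul, nsmul_eq_mul]
  refine add_le_add ?_ le_rfl
  rw [mul_comm]
  exact mul_le_mul_of_nonneg_left hE hP1

end Scale

end Pool.Agent.J4.H53.WM
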