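import Mathlib

set_option autoImplicit false

/-! # Even moments of exponential sums over all coefficients -/

namespace Pool.Agent.J4.H53.WM

open Finset

variable {P : ℕ} [Fact P.Prime]

lemma conj_std (x : ZMod P) :
    (starRingEnd ℂ) (ZMod.stdAddChar x : ℂ) = ZMod.stdAddChar (-x) :=
  (AddChar.map_neg_eq_conj _ _).symm

lemma std_sum {ι : Type} (s : Finset ι) (f : ι → ZMod P) :
    (ZMod.stdAddChar (∑ i ∈ s, f i) : ℂ) = ∏ i ∈ s, (ZMod.stdAddChar (f i) : ℂ) := by
  classical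
  induction s using Finset.induction_on with
  | empty => simp
  | insert a s ha ih => rw [sum_insert ha, prod_insert ha, AddChar.map_add_eq_mul, ih]

lemma orth1 (y : ZMod P) :
    ∑ x : ZMod P, (ZMod.stdAddChar (x * y) : ℂ) = if y = 0 then (P : ℂ) else 0 := by
  have h := AddChar.sum_mulShift (R := ZMod P) (R' := ℂ) (ψ := ZMod.stdAddChar) y
    (ZMod.isPrimitive_stdAddChar P)
  rw [h]
  split_ifs
  · simp [ZMod.card]
  · simp

lemma orth {κ : Type} [Fintype κ] [DecidableEq κ] (w : κ → ZMod P) :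
    ∑ c : κ → ZMod P, (ZMod.stdAddChar (∑ j, c j * w j) : ℂ) =
      if w = 0 then (P : ℂ) ^ (Fintype.card κ) else 0 := by
  have h1 : ∀ c : κ → ZMod P, (ZMod.stdAddChar (∑ j, c j * w j) : ℂ) =
      ∏ j, (ZMod.stdAddChar (c j * w j) : ℂ) := fun c => std_sum _ _
  simp_rw [h1]
  rw [← Fintype.piFinset_univ, ← prod_univ_sum (fun _ : κ => (univ : Finset (ZMod P)))
    (fun j x => (ZMod.stdAddChar (x * w j) : ℂ))]
  simp_rw [orth1]
  split_ifs with h
  · subst h
    simp
  · have h2 : ∃ j, w j ≠ 0 := by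
      by_contra h3
      push Not at h3
      exact h (funext h3)
    obtain ⟨j, hj⟩ := h2
    exact prod_eq_zero (mem_univ j) (if_neg hj)

/-- the solutions of the symmetric system -/
def sols {T κ : Type} [Fintype T] [Fintype κ] (φ : T → κ → ZMod P) (m : ℕ) :
    Finset ((Fin m → T) × (Fin m → T)) :=
  {w | ∀ j, ∑ i, φ (w.1 i) j = ∑ i, φ (w.2 i) j}

lemma moment {T κ : Type} [Fintype T] [Fintype κ] [DecidableEq κ] (φ : T → κ → ZMod P)
    (m : ℕ) :
    ∑ c : κ → ZMod P, ‖∑ t : T, (ZMod.stdAddChar (∑ j, c j * φ t j) : ℂ)‖ ^ (2 * m) =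
      (P : ℝ) ^ (Fintype.card κ) * (sols φ m).card := by
  have h1 : ∀ c : κ → ZMod P,
      (∑ t : T, (ZMod.stdAddChar (∑ j, c j * φ t j) : ℂ)) ^ m =
      ∑ t : Fin m → T, (ZMod.stdAddChar (∑ j, c j * ∑ i, φ (t i) j) : ℂ) := by
    intro c
    rw [Fintype.sum_pow]
    refine sum_congr rfl fun t _ => ?_
    rw [← std_sum]
    congr 1
    rw [sum_comm]
    refine sum_congr rfl fun j _ => ?_
    rw [mul_sum]
  have h2 : ∀ c : κ → ZMod P,
      ((‖∑ t : T, (ZMod.stdAddChar (∑ j, c j * φ t j) : ℂ)‖ ^ (2 * m) : ℝ) : ℂ) =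
      ∑ w : (Fin m → T) × (Fin m → T), (ZMod.stdAddChar
        (∑ j, c j * (∑ i, φ (w.1 i) j - ∑ i, φ (w.2 i) j)) : ℂ) := by
    intro c
    rw [pow_mul]
    push_cast
    rw [← Complex.mul_conj', mul_pow, ← map_pow, h1, map_sum, Fintype.sum_mul_sum,
      ← univ_product_univ, sum_product]
    refine sum_congr rfl fun t _ => sum_congr rfl fun u _ => ?_
    rw [conj_std, ← AddChar.map_add_eq_mul]
    congr 1
    rw [← sub_eq_add_neg, ← sum_sub_distrib]
    refine sum_congr rfl fun j _ => ?_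
    ring
  have h3 : (((∑ c : κ → ZMod P,
      ‖∑ t : T, (ZMod.stdAddChar (∑ j, c j * φ t j) : ℂ)‖ ^ (2 * m) : ℝ)) : ℂ) =
      (((P : ℝ) ^ (Fintype.card κ) * (sols φ m).card : ℝ) : ℂ) := by
    rw [Complex.ofReal_sum]
    simp_rw [h2]
    rw [sum_comm]
    simp_rw [orth]
    rw [← sum_filter, sum_const, nsmul_eq_mul, mul_comm]
    push_cast
    congr 2
    unfold sols
    congr 1
    congr 1
    ext w
    simp only [funext_iff, Pi.zero_apply, sub_eq_zero]
  exact_mod_cast h3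

end Pool.Agent.J4.H53.WM
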