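import Mathlib

set_option autoImplicit false

/-! # The Schwartz-Zippel bound over a prime field -/

namespace Pool.Agent.J4.H53.WM

open Finset

variable {P : ℕ} [Fact P.Prime]

lemma sz_fin {n : ℕ} (p : MvPolynomial (Fin n) (ZMod P)) (hp : p ≠ 0) :
    (univ.filter (fun x : Fin n → ZMod P => MvPolynomial.eval x p = 0)).card * P ≤
      p.totalDegree * P ^ n := by
  have h := MvPolynomial.schwartz_zippel_totalDegree hp (univ : Finset (ZMod P))
  rw [Fintype.piFinset_univ, card_univ, ZMod.card] at h
  have hP : (0 : ℚ≥0) < P := by exact_mod_cast (Fact.out : P.Prime).pos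
  rw [div_le_div_iff₀ (by positivity) hP] at h
  exact_mod_cast h

lemma sz {σ : Type} [Fintype σ] [DecidableEq σ] (p : MvPolynomial σ (ZMod P)) (hp : p ≠ 0)
    (d : ℕ) (hd : p.totalDegree ≤ d) :
    (univ.filter (fun x : σ → ZMod P => MvPolynomial.eval x p = 0)).card * P ≤
      d * P ^ (Fintype.card σ) := by
  classical
  set e := Fintype.equivFin σ with he
  have hp' : MvPolynomial.rename e p ≠ 0 := by
    intro h
    exact hp (MvPolynomial.rename_injective _ e.injective (by rw [h, map_zero]))
  have h1 := sz_fin (MvPolynomial.rename e p) hp'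
  have h2 : (univ.filter (fun x : σ → ZMod P => MvPolynomial.eval x p = 0)).card =
      (univ.filter (fun x : Fin (Fintype.card σ) → ZMod P =>
        MvPolynomial.eval x (MvPolynomial.rename e p) = 0)).card := by
    refine card_nbij' (fun x => x ∘ e.symm) (fun x => x ∘ e) ?_ ?_ ?_ ?_
    · intro x hx
      rw [mem_coe, mem_filter] at hx ⊢
      refine ⟨mem_univ _, ?_⟩
      rw [MvPolynomial.eval_rename]
      have : (x ∘ e.symm) ∘ e = x := by
        funext j; simp
      rw [this]
      exact hx.2
    · intro x hx
      rw [mem_coe, mem_filter] at hx ⊢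
      refine ⟨mem_univ _, ?_⟩
      rw [MvPolynomial.eval_rename] at hx
      exact hx.2
    · intro x _
      funext j; simp
    · intro x _
      funext j; simp
  rw [h2]
  exact h1.trans (Nat.mul_le_mul_right _ ((MvPolynomial.totalDegree_rename_le _ _).trans hd))

end Pool.Agent.J4.H53.WM
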