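import Pool.Agent.J4.H53.WM.Newton
import Pool.Agent.J4.H53.WM.Moment
import Pool.Agent.J4.H53.WM.SZ

set_option autoImplicit false

/-! # Exponential sums with Laurent polynomials: a power saving -/

namespace Pool.Agent.J4.H53.WM

open Finset

/-- the exponents -/
noncomputable def KK (D : ℕ) : Finset ℤ := (Icc (-(D : ℤ)) D).erase 0

lemma mem_KK {D : ℕ} {k : ℤ} : k ∈ KK D ↔ k ≠ 0 ∧ |k| ≤ D := by
  rw [KK, mem_erase, mem_Icc, abs_le]

lemma card_KK (D : ℕ) : Fintype.card (KK D) = 2 * D := by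
  rw [Fintype.card_coe, KK, card_erase_of_mem (by simp), Int.card_Icc]
  omega

variable {P : ℕ} [Fact P.Prime]

/-- the powers -/
def ph (D : ℕ) (t : (ZMod P)ˣ) (k : KK D) : ZMod P := ((t ^ (k : ℤ) : (ZMod P)ˣ) : ZMod P)

lemma es_ne {s D : ℕ} (hs : D ≤ s) : MvPolynomial.esymm (Fin s) (ZMod P) D ≠ 0 := by
  intro h
  have h1 := MvPolynomial.support_esymm (σ := Fin s) (R := ZMod P) D
  rw [h, MvPolynomial.support_zero] at h1
  have h2 : (powersetCard D (univ : Finset (Fin s))).Nonempty :=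
    powersetCard_nonempty.2 (by rw [card_univ, Fintype.card_fin]; exact hs)
  exact (h2.image _).ne_empty h1.symm

lemma es_deg {s D : ℕ} : (MvPolynomial.esymm (Fin s) (ZMod P) D).totalDegree ≤ D := by
  unfold MvPolynomial.esymm
  refine MvPolynomial.totalDegree_finsetSum_le fun A hA => ?_
  refine (MvPolynomial.totalDegree_finsetProd _ _).trans ?_
  rw [mem_powersetCard_univ] at hA
  calc ∑ i ∈ A, (MvPolynomial.X i : MvPolynomial (Fin s) (ZMod P)).totalDegree
      ≤ ∑ _i ∈ A, 1 := sum_le_sum fun i _ => (MvPolynomial.totalDegree_X i).le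
    _ = D := by rw [sum_const, hA, smul_eq_mul, mul_one]

lemma card_es_zero {s D : ℕ} (hs : D ≤ s) :
    (univ.filter (fun t : Fin s → (ZMod P)ˣ => es (fun i => (t i : ZMod P)) D = 0)).card * P ≤
      D * P ^ s := by
  have h := sz (P := P) (MvPolynomial.esymm (Fin s) (ZMod P) D) (es_ne hs) D es_deg
  rw [Fintype.card_fin] at h
  refine le_trans (Nat.mul_le_mul_right _ ?_) h
  refine card_le_card_of_injOn (fun t i => (t i : ZMod P)) ?_ ?_
  · intro t ht
    rw [mem_coe, mem_filter] at ht ⊢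
    exact ⟨mem_univ _, ht.2⟩
  · intro t _ u _ h
    funext i
    exact Units.ext (congrFun h i)

lemma ph_pos (D : ℕ) (t : (ZMod P)ˣ) (j : ℕ) (h : (j : ℤ) ∈ KK D) :
    ph D t ⟨(j : ℤ), h⟩ = (t : ZMod P) ^ j := by
  unfold ph
  rw [zpow_natCast, Units.val_pow_eq_pow_val]

lemma ph_neg (D : ℕ) (t : (ZMod P)ˣ) (j : ℕ) (h : -(j : ℤ) ∈ KK D) :
    ph D t ⟨-(j : ℤ), h⟩ = ((t : ZMod P)⁻¹) ^ j := by
  unfold ph
  rw [zpow_neg, zpow_natCast, Units.val_inv_eq_inv_val, Units.val_pow_eq_pow_val, inv_pow]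

/-- the solutions with given `t` -/
noncomputable def US (D : ℕ) (t : Fin (2 * D) → (ZMod P)ˣ) : Finset (Fin (2 * D) → (ZMod P)ˣ) :=
  univ.filter (fun u => ∀ j, ∑ i, ph D (t i) j = ∑ i, ph D (u i) j)

lemma pos_sum {D : ℕ} {t u : Fin (2 * D) → (ZMod P)ˣ} (h : u ∈ US D t) (j : ℕ) (h1 : 1 ≤ j)
    (h2 : j ≤ D) : ∑ i, (t i : ZMod P) ^ j = ∑ i, (u i : ZMod P) ^ j := by
  have h3 := (mem_filter.1 h).2 ⟨(j : ℤ), mem_KK.2 ⟨by omega, by rw [abs_le]; omega⟩⟩
  simp_rw [ph_pos] at h3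
  exact h3

lemma neg_sum {D : ℕ} {t u : Fin (2 * D) → (ZMod P)ˣ} (h : u ∈ US D t) (j : ℕ) (h1 : 1 ≤ j)
    (h2 : j ≤ D) : ∑ i, ((t i : ZMod P)⁻¹) ^ j = ∑ i, ((u i : ZMod P)⁻¹) ^ j := by
  have h3 := (mem_filter.1 h).2 ⟨-(j : ℤ), mem_KK.2 ⟨by omega, by rw [abs_le]; omega⟩⟩
  simp_rw [ph_neg] at h3
  exact h3

lemma cast_ne {D : ℕ} (hP : D < P) (j : ℕ) (h1 : 1 ≤ j) (h2 : j ≤ D) : (j : ZMod P) ≠ 0 := by
  intro h
  rw [ZMod.natCast_eq_zero_iff] at h
  exact absurd (Nat.le_of_dvd (by omega) h) (by omega)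

/-- the elementary symmetric functions are determined by the last one -/
lemma es_all {D : ℕ} (hP : D < P) {t u v : Fin (2 * D) → (ZMod P)ˣ} (hu : u ∈ US D t)
    (hv : v ∈ US D t)
    (h : es (fun i => (u i : ZMod P)) (2 * D) = es (fun i => (v i : ZMod P)) (2 * D)) :
    ∀ k ≤ 2 * D, es (fun i => (u i : ZMod P)) k = es (fun i => (v i : ZMod P)) k := by
  intro k hk
  rcases le_total k D with h1 | h1
  · rw [← es_eq _ _ D (cast_ne hP) (pos_sum hu) k h1, es_eq _ _ D (cast_ne hP) (pos_sum hv) k h1]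
  · have e : k = 2 * D - (2 * D - k) := by omega
    rw [e, ← es_inv _ (fun i => (u i).ne_zero) _ (by omega),
      ← es_inv _ (fun i => (v i).ne_zero) _ (by omega), h,
      ← es_eq _ _ D (cast_ne hP) (neg_sum hu) (2 * D - k) (by omega),
      es_eq _ _ D (cast_ne hP) (neg_sum hv) (2 * D - k) (by omega)]

lemma self_mem {D : ℕ} (t : Fin (2 * D) → (ZMod P)ˣ) : t ∈ US D t :=
  mem_filter.2 ⟨mem_univ _, fun _ => rfl⟩

lemma es_last {D : ℕ} (hP : D < P) {t u : Fin (2 * D) → (ZMod P)ˣ} (hu : u ∈ US D t)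
    (h : es (fun i => (t i : ZMod P)) D ≠ 0) :
    es (fun i => (u i : ZMod P)) (2 * D) = es (fun i => (t i : ZMod P)) (2 * D) := by
  have h1 := es_inv (fun i => (u i : ZMod P)) (fun i => (u i).ne_zero) D (by omega)
  have h2 := es_inv (fun i => (t i : ZMod P)) (fun i => (t i).ne_zero) D (by omega)
  have h3 := es_eq _ _ D (cast_ne hP) (pos_sum hu) D le_rfl
  have h4 := es_eq _ _ D (cast_ne hP) (neg_sum hu) D le_rfl
  have e : 2 * D - D = D := by omega
  rw [e] at h1 h2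
  rw [← h4, ← h3, ← h2] at h1
  refine mul_left_cancel₀ ?_ h1
  intro h5
  rw [h5, zero_mul] at h2
  exact h h2.symm

lemma card_range {s : ℕ} (t : Fin s → (ZMod P)ˣ) :
    (univ.filter (fun u : Fin s → (ZMod P)ˣ => ∀ i, ∃ j, u i = t j)).card ≤ s ^ s := by
  classical
  have h : (univ.filter (fun u : Fin s → (ZMod P)ˣ => ∀ i, ∃ j, u i = t j)) ⊆
      (univ : Finset (Fin s → Fin s)).image (fun g => t ∘ g) := by
    intro u hu
    rw [mem_filter] at hu
    choose g hg using hu.2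
    exact mem_image.2 ⟨g, mem_univ _, by funext i; exact (hg i).symm⟩
  refine (card_le_card h).trans (card_image_le.trans ?_)
  rw [card_univ, Fintype.card_fun, Fintype.card_fin]

lemma fiber {D : ℕ} (hP : D < P) (t : Fin (2 * D) → (ZMod P)ˣ) (c : ZMod P) :
    ((US D t).filter (fun u => es (fun i => (u i : ZMod P)) (2 * D) = c)).card ≤
      (2 * D) ^ (2 * D) := by
  rcases ((US D t).filter (fun u => es (fun i => (u i : ZMod P)) (2 * D) = c)).eq_empty_or_nonempty
    with h | ⟨v, hv⟩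
  · rw [h]; simp
  · refine le_trans (card_le_card ?_) (card_range v)
    intro u hu
    rw [mem_filter] at hu hv ⊢
    refine ⟨mem_univ _, fun i => ?_⟩
    obtain ⟨j, hj⟩ := mem_of_es _ _ (es_all hP hv.1 hu.1 (hv.2.trans hu.2.symm)) i
    exact ⟨j, Units.ext hj⟩

lemma card_US (D : ℕ) (hP : D < P) (t : Fin (2 * D) → (ZMod P)ˣ) :
    (US D t).card ≤ (2 * D) ^ (2 * D) *
      (if es (fun i => (t i : ZMod P)) D = 0 then P else 1) := by
  classical
  split_ifs with h
  · refine (card_le_mul_card_image (s := US D t) (f := fun u => es (fun i => (u i : ZMod P)) (2 * D))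
      ((2 * D) ^ (2 * D)) ?_).trans ?_
    · intro c _
      exact fiber hP t c
    · refine Nat.mul_le_mul_left _ ((card_le_univ _).trans ?_)
      rw [ZMod.card]
  · rw [mul_one]
    refine le_trans (card_le_card ?_) (fiber hP t (es (fun i => (t i : ZMod P)) (2 * D)))
    intro u hu
    exact mem_filter.2 ⟨hu, es_last hP hu h⟩

lemma card_units : Fintype.card (ZMod P)ˣ = P - 1 := ZMod.card_units P

lemma sols_card (D : ℕ) (hP : D < P) :
    (sols (ph (P := P) D) (2 * D)).card ≤ (D + 1) * (2 * D) ^ (2 * D) * P ^ (2 * D) := by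
  classical
  have h1 : (sols (ph (P := P) D) (2 * D)).card = ∑ t : Fin (2 * D) → (ZMod P)ˣ, (US D t).card := by
    unfold sols US
    simp_rw [card_filter]
    rw [← univ_product_univ, sum_product]
  rw [h1]
  calc ∑ t : Fin (2 * D) → (ZMod P)ˣ, (US D t).card
      ≤ ∑ t : Fin (2 * D) → (ZMod P)ˣ, (2 * D) ^ (2 * D) *
        ((if es (fun i => (t i : ZMod P)) D = 0 then P else 0) + 1) := by
        refine sum_le_sum fun t _ => (card_US D hP t).trans (Nat.mul_le_mul_left _ ?_)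
        split_ifs <;> omega
    _ = (2 * D) ^ (2 * D) * ((univ.filter (fun t : Fin (2 * D) → (ZMod P)ˣ =>
          es (fun i => (t i : ZMod P)) D = 0)).card * P + (P - 1) ^ (2 * D)) := by
        rw [← mul_sum, sum_add_distrib, ← sum_filter, sum_const, smul_eq_mul, sum_const,
          smul_eq_mul, mul_one, card_univ, Fintype.card_fun, Fintype.card_fin, card_units]
    _ ≤ (2 * D) ^ (2 * D) * (D * P ^ (2 * D) + P ^ (2 * D)) := by
        refine Nat.mul_le_mul_left _ (Nat.add_le_add (card_es_zero (by omega)) ?_)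
        exact Nat.pow_le_pow_left (by omega) _
    _ = _ := by ring

end Pool.Agent.J4.H53.WM
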