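import Mathlib

set_option autoImplicit false

/-!
# Symmetric systems of Laurent type

Two families `t, u` of `2 D` nonzero elements of a field with the same power sums for all exponents
`j` with `0 < |j| ≤ D`: the number of solutions over a finite field.
-/

namespace Pool.Agent.J4.H53.WM

open Finset

section Newton

variable {F : Type} [Field F] {s : ℕ}

/-- the values of the elementary symmetric polynomials -/
noncomputable def es (t : Fin s → F) (k : ℕ) : F :=
  MvPolynomial.eval t (MvPolynomial.esymm (Fin s) F k)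

lemma es_def (t : Fin s → F) (k : ℕ) :
    es t k = ∑ A ∈ powersetCard k (univ : Finset (Fin s)), ∏ i ∈ A, t i := by
  rw [es, MvPolynomial.esymm, map_sum]
  refine sum_congr rfl fun A _ => ?_
  rw [map_prod]
  exact prod_congr rfl fun i _ => MvPolynomial.eval_X i

lemma newton (t : Fin s → F) (k : ℕ) : (k : F) * es t k = (-1) ^ (k + 1) *
    ∑ a ∈ antidiagonal k with a.1 < k, (-1) ^ a.1 * es t a.1 * ∑ i, t i ^ a.2 := by
  have h := congrArg (MvPolynomial.eval t) (MvPolynomial.mul_esymm_eq_sum (Fin s) F k)
  simp only [map_mul, map_natCast, map_pow, map_neg, map_one, map_sum] at h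
  rw [es, h]
  congr 1
  refine sum_congr rfl fun a _ => ?_
  rw [es, MvPolynomial.psum, map_sum]
  congr 1
  refine sum_congr rfl fun i _ => ?_
  rw [map_pow, MvPolynomial.eval_X]

lemma es_eq (t u : Fin s → F) (D : ℕ) (hD : ∀ j : ℕ, 1 ≤ j → j ≤ D → (j : F) ≠ 0)
    (h : ∀ j : ℕ, 1 ≤ j → j ≤ D → ∑ i, t i ^ j = ∑ i, u i ^ j) :
    ∀ k : ℕ, k ≤ D → es t k = es u k := by
  intro k
  induction k using Nat.strong_induction_on with
  | _ k ih =>
    intro hk
    rcases Nat.eq_zero_or_pos k with rfl | hk0
    · simp [es]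
    · apply mul_left_cancel₀ (hD k hk0 hk)
      rw [newton, newton]
      congr 1
      refine sum_congr rfl fun a ha => ?_
      rw [mem_filter, HasAntidiagonal.mem_antidiagonal] at ha
      rw [ih a.1 ha.2 (by omega), h a.2 (by omega) (by omega)]

lemma es_inv (t : Fin s → F) (ht : ∀ i, t i ≠ 0) (k : ℕ) (hk : k ≤ s) :
    es (fun i => (t i)⁻¹) k * es t s = es t (s - k) := by
  classical
  rw [es_def, es_def, es_def]
  have h1 : powersetCard s (univ : Finset (Fin s)) = {univ} := by
    have h := powersetCard_self (univ : Finset (Fin s))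
    rwa [card_univ, Fintype.card_fin] at h
  rw [h1, sum_singleton, sum_mul]
  refine sum_nbij' (fun A => Aᶜ) (fun A => Aᶜ) ?_ ?_ ?_ ?_ ?_
  · intro A hA
    rw [mem_powersetCard_univ] at hA ⊢
    rw [card_compl, Fintype.card_fin, hA]
  · intro A hA
    rw [mem_powersetCard_univ] at hA ⊢
    rw [card_compl, Fintype.card_fin, hA]
    omega
  · intro A _
    exact compl_compl A
  · intro A _
    exact compl_compl A
  · intro A _
    have h2 : ∏ i, t i = (∏ i ∈ A, t i) * ∏ i ∈ Aᶜ, t i := by
      rw [prod_mul_prod_compl]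
    rw [h2, ← mul_assoc, ← prod_mul_distrib]
    rw [prod_eq_one fun i _ => inv_mul_cancel₀ (ht i), one_mul]

lemma prod_eval (t : Fin s → F) (x : F) :
    ∏ i, (x - t i) = ∑ k ∈ range (s + 1), (-1) ^ k * es t k * x ^ (s - k) := by
  have h := congrArg (Polynomial.eval x) (Multiset.prod_X_sub_X_eq_sum_esymm (univ.val.map t))
  rw [Polynomial.eval_finsetSum, Multiset.card_map, card_val, card_univ, Fintype.card_fin] at h
  have h1 : Polynomial.eval x (Multiset.map (fun y => Polynomial.X - Polynomial.C y)
      (univ.val.map t)).prod = ∏ i, (x - t i) := by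
    rw [Multiset.map_map]
    change Polynomial.eval x (∏ i, (Polynomial.X - Polynomial.C (t i))) = _
    rw [Polynomial.eval_prod]
    simp
  rw [h1] at h
  rw [h]
  refine sum_congr rfl fun k _ => ?_
  have h2 : es t k = (univ.val.map t).esymm k := by
    have h3 := MvPolynomial.aeval_esymm_eq_multiset_esymm (Fin s) F k t
    rw [← h3, es, MvPolynomial.aeval_eq_eval]
  rw [h2]
  simp only [Polynomial.eval_mul, Polynomial.eval_pow, Polynomial.eval_neg, Polynomial.eval_one,
    Polynomial.eval_C, Polynomial.eval_X, mul_assoc]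

/-- equal elementary symmetric functions: the same values -/
lemma mem_of_es (t u : Fin s → F) (h : ∀ k ≤ s, es t k = es u k) (i : Fin s) :
    ∃ j, u i = t j := by
  have h1 : ∏ j, (u i - t j) = 0 := by
    rw [prod_eval]
    have h2 : ∏ j, (u i - u j) = 0 := prod_eq_zero (mem_univ i) (sub_self _)
    rw [prod_eval] at h2
    rw [← h2]
    refine sum_congr rfl fun k hk => ?_
    rw [h k (by rw [mem_range] at hk; omega)]
  obtain ⟨j, -, hj⟩ := prod_eq_zero_iff.1 h1
  exact ⟨j, sub_eq_zero.1 hj⟩

end Newton

end Pool.Agent.J4.H53.WM
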