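import Pool.Agent.J4.H53.WM.SZ

set_option autoImplicit false

/-! # Words in matrices: the number of zeros of the matrix entries -/

namespace Pool.Agent.J4.H53.WM

open Finset Matrix

variable {P : ℕ} [Fact P.Prime] {n k : ℕ}

section Generic

variable {R : Type} [CommRing R]

/-- a letter -/
noncomputable def let1 (M : Fin k → Matrix (Fin n) (Fin n) R) (y : Fin k × Bool) :
    Matrix (Fin n) (Fin n) R := if y.2 then M y.1 else (M y.1).adjugate

/-- a word, with the adjugate in place of the inverse -/
noncomputable def wd (M : Fin k → Matrix (Fin n) (Fin n) R) (l : List (Fin k × Bool)) :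
    Matrix (Fin n) (Fin n) R := (l.map (let1 M)).prod

lemma wd_nil (M : Fin k → Matrix (Fin n) (Fin n) R) : wd M [] = 1 := rfl

lemma wd_cons (M : Fin k → Matrix (Fin n) (Fin n) R) (y : Fin k × Bool)
    (l : List (Fin k × Bool)) : wd M (y :: l) = let1 M y * wd M l := by
  unfold wd
  rw [List.map_cons, List.prod_cons]

end Generic

/-- the generic matrices -/
noncomputable def gen (P n k : ℕ) (i : Fin k) :
    Matrix (Fin n) (Fin n) (MvPolynomial (Fin k × Fin n × Fin n) (ZMod P)) :=
  Matrix.of fun a b => MvPolynomial.X (i, a, b)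

omit [Fact P.Prime] in
lemma gen_apply (i : Fin k) (a b : Fin n) : gen P n k i a b = MvPolynomial.X (i, a, b) := rfl

lemma deg_det (M : Matrix (Fin n) (Fin n) (MvPolynomial (Fin k × Fin n × Fin n) (ZMod P)))
    (h : ∀ a b, (M a b).totalDegree ≤ 1) : M.det.totalDegree ≤ n := by
  rw [Matrix.det_apply]
  refine MvPolynomial.totalDegree_finsetSum_le fun σ _ => ?_
  refine (MvPolynomial.totalDegree_smul_le _ _).trans ?_
  refine (MvPolynomial.totalDegree_finsetProd _ _).trans ?_
  calc ∑ i, (M (σ i) i).totalDegree ≤ ∑ _i : Fin n, 1 := sum_le_sum fun i _ => h _ _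
    _ = n := by simp

lemma deg_gen (i : Fin k) (a b : Fin n) : (gen P n k i a b).totalDegree ≤ 1 := by
  rw [gen_apply]
  exact (MvPolynomial.totalDegree_X _).le

lemma deg_let (hn : 1 ≤ n) (y : Fin k × Bool) (a b : Fin n) :
    (let1 (gen P n k) y a b).totalDegree ≤ n := by
  unfold let1
  split_ifs with h
  · exact (deg_gen _ _ _).trans hn
  · rw [Matrix.adjugate_apply]
    apply deg_det
    intro a' b'
    rw [Matrix.updateRow_apply]
    split_ifs
    · rw [Pi.single_apply]
      split_ifs
      · simp
      · simp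
    · exact deg_gen _ _ _

lemma deg_wd (hn : 1 ≤ n) (l : List (Fin k × Bool)) (a b : Fin n) :
    (wd (gen P n k) l a b).totalDegree ≤ n * l.length := by
  induction l generalizing a b with
  | nil =>
    rw [wd_nil, Matrix.one_apply]
    split_ifs <;> simp
  | cons y l ih =>
    rw [wd_cons, Matrix.mul_apply]
    refine MvPolynomial.totalDegree_finsetSum_le fun j _ => ?_
    refine (MvPolynomial.totalDegree_mul _ _).trans ?_
    rw [List.length_cons, mul_add, mul_one, add_comm]
    exact Nat.add_le_add (ih _ _) (deg_let hn y _ _)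

/-- the values of the entries -/
def pt (X : Fin k → GL (Fin n) (ZMod P)) : Fin k × Fin n × Fin n → ZMod P :=
  fun j => (X j.1 : Matrix (Fin n) (Fin n) (ZMod P)) j.2.1 j.2.2

lemma pt_inj : Function.Injective (pt (P := P) (n := n) (k := k)) := by
  intro X Y h
  funext i
  apply Units.ext
  ext a b
  exact congrFun h (i, a, b)

lemma map_gen (X : Fin k → GL (Fin n) (ZMod P)) (i : Fin k) :
    (MvPolynomial.eval (pt X)).mapMatrix (gen P n k i) = X i := by
  ext a b
  rw [RingHom.mapMatrix_apply, Matrix.map_apply, gen_apply, MvPolynomial.eval_X]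
  rfl

lemma map_let (X : Fin k → GL (Fin n) (ZMod P)) (y : Fin k × Bool) :
    (MvPolynomial.eval (pt X)).mapMatrix (let1 (gen P n k) y) =
      let1 (fun i => (X i : Matrix (Fin n) (Fin n) (ZMod P))) y := by
  unfold let1
  split_ifs
  · exact map_gen X _
  · rw [RingHom.map_adjugate, map_gen]

lemma map_wd (X : Fin k → GL (Fin n) (ZMod P)) (l : List (Fin k × Bool)) :
    (MvPolynomial.eval (pt X)).mapMatrix (wd (gen P n k) l) =
      wd (fun i => (X i : Matrix (Fin n) (Fin n) (ZMod P))) l := by
  induction l with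
  | nil => rw [wd_nil, wd_nil, map_one]
  | cons y l ih => rw [wd_cons, wd_cons, map_mul, ih, map_let]

/-- up to a factor the word with adjugates is the word -/
lemma wd_eq (X : Fin k → GL (Fin n) (ZMod P)) (l : List (Fin k × Bool)) :
    ∃ c : ZMod P, c ≠ 0 ∧ wd (fun i => (X i : Matrix (Fin n) (Fin n) (ZMod P))) l =
      c • (((FreeGroup.lift X (FreeGroup.mk l) : GL (Fin n) (ZMod P)) :
        Matrix (Fin n) (Fin n) (ZMod P))) := by
  induction l with
  | nil =>
    refine ⟨1, one_ne_zero, ?_⟩
    rw [wd_nil, one_smul, FreeGroup.lift_mk]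
    simp
  | cons y l ih =>
    obtain ⟨c, hc, e⟩ := ih
    rw [wd_cons, e]
    rw [FreeGroup.lift_mk] at *
    obtain ⟨i, b⟩ := y
    cases b
    · refine ⟨(X i : Matrix (Fin n) (Fin n) (ZMod P)).det * c,
        mul_ne_zero ((Matrix.isUnit_iff_isUnit_det _).1 (X i).isUnit).ne_zero hc, ?_⟩
      have h1 : let1 (fun i => (X i : Matrix (Fin n) (Fin n) (ZMod P))) (i, false) =
          (X i : Matrix (Fin n) (Fin n) (ZMod P)).det •
            (((X i)⁻¹ : GL (Fin n) (ZMod P)) : Matrix (Fin n) (Fin n) (ZMod P)) := by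
        unfold let1
        rw [Matrix.coe_units_inv, Matrix.inv_def, smul_smul,
          Ring.mul_inverse_cancel _ ((Matrix.isUnit_iff_isUnit_det _).1 (X i).isUnit), one_smul]
        simp
      rw [h1, FreeGroup.lift_mk, List.map_cons, List.prod_cons, smul_mul_smul_comm]
      rfl
    · refine ⟨c, hc, ?_⟩
      have h1 : let1 (fun i => (X i : Matrix (Fin n) (Fin n) (ZMod P))) (i, true) =
          (X i : Matrix (Fin n) (Fin n) (ZMod P)) := by
        unfold let1
        simp
      rw [h1, FreeGroup.lift_mk, List.map_cons, List.prod_cons, mul_smul_comm]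
      rfl

end Pool.Agent.J4.H53.WM
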