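import Pool.Agent.J4.H53.WM.Words

set_option autoImplicit false

/-! # Words in matrices: few zeros -/

namespace Pool.Agent.J4.H53.WM

open Finset Matrix

variable {P : ℕ} [Fact P.Prime] {n k : ℕ}

/-- the linear form with coefficients `h` -/
def lf (h : Fin n → Fin n → ZMod P) (M : Matrix (Fin n) (Fin n) (ZMod P)) : ZMod P :=
  ∑ a, ∑ b, h a b * M a b

/-- diagonal matrices with one entry `z` -/
def dg (a : Fin n) : ZMod P →* Matrix (Fin n) (Fin n) (ZMod P) where
  toFun z := Matrix.diagonal (Function.update 1 a z)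
  map_one' := by
    have h : Function.update (1 : Fin n → ZMod P) a 1 = 1 := Function.update_eq_self a 1
    rw [h]
    exact Matrix.diagonal_one
  map_mul' x y := by
    rw [Matrix.diagonal_mul_diagonal]
    congr 1
    funext i
    by_cases h : i = a
    · subst h; simp
    · simp [Function.update_of_ne h]

/-- transvections -/
def tv (a b : Fin n) (hab : a ≠ b) :
    Multiplicative (ZMod P) →* Matrix (Fin n) (Fin n) (ZMod P) where
  toFun z := Matrix.transvection a b z.toAdd
  map_one' := Matrix.transvection_zero a b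
  map_mul' _ _ := (Matrix.transvection_mul_transvection_same a b hab _ _).symm

lemma lf_one (h : Fin n → Fin n → ZMod P) : lf h 1 = ∑ a, h a a := by
  unfold lf
  refine sum_congr rfl fun a _ => ?_
  rw [sum_eq_single a]
  · rw [Matrix.one_apply_eq, mul_one]
  · intro b _ hb
    rw [Matrix.one_apply_ne hb.symm, mul_zero]
  · intro h; exact absurd (mem_univ _) h

lemma lf_tv (h : Fin n → Fin n → ZMod P) (a b : Fin n) (hab : a ≠ b) (z : Multiplicative (ZMod P)) :
    lf h (tv a b hab z) = ∑ c, h c c + h a b * z.toAdd := by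
  have e : (tv a b hab z : Matrix (Fin n) (Fin n) (ZMod P)) = 1 + Matrix.single a b z.toAdd := rfl
  rw [e]
  have e2 : lf h (1 + Matrix.single a b z.toAdd) = lf h 1 + lf h (Matrix.single a b z.toAdd) := by
    unfold lf
    simp_rw [Matrix.add_apply, mul_add, sum_add_distrib]
  rw [e2, lf_one]
  congr 1
  unfold lf
  rw [sum_eq_single a, sum_eq_single b]
  · rw [Matrix.single_apply_same]
  · intro b' _ hb
    rw [Matrix.single_apply, if_neg (fun h => hb h.2.symm), mul_zero]
  · intro h; exact absurd (mem_univ _) h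
  · intro a' _ ha
    refine sum_eq_zero fun b' _ => ?_
    rw [Matrix.single_apply, if_neg (fun h => ha h.1.symm), mul_zero]
  · intro h; exact absurd (mem_univ _) h

lemma lf_dg (h : Fin n → Fin n → ZMod P) (a : Fin n) (z : ZMod P) :
    lf h (dg a z) = ∑ c, h c c + h a a * (z - 1) := by
  have e : lf h (dg a z) = ∑ c, h c c * Function.update (1 : Fin n → ZMod P) a z c := by
    unfold lf
    refine sum_congr rfl fun c _ => ?_
    rw [sum_eq_single c]
    · congr 1
      exact Matrix.diagonal_apply_eq _ _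
    · intro b _ hb
      have : (dg a z : Matrix (Fin n) (Fin n) (ZMod P)) c b = 0 := Matrix.diagonal_apply_ne _ hb.symm
      rw [this, mul_zero]
    · intro h; exact absurd (mem_univ _) h
  rw [e, ← sub_eq_iff_eq_add', ← sum_sub_distrib, sum_eq_single a]
  · rw [Function.update_self]; ring
  · intro c _ hc
    rw [Function.update_of_ne hc]
    simp
  · intro h; exact absurd (mem_univ _) h

lemma exists_pow_ne (N : ℤ) (hN : N ≠ 0) (hP : N.natAbs + 1 < P) : ∃ z : (ZMod P)ˣ, z ^ N ≠ 1 := by
  classical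
  by_contra hcon
  push Not at hcon
  have h0 : 0 < N.natAbs := Int.natAbs_pos.2 hN
  have h1 := IsCyclic.card_pow_eq_one_le (α := (ZMod P)ˣ) h0
  have h2 : (univ.filter (fun a : (ZMod P)ˣ => a ^ N.natAbs = 1)) = univ := by
    rw [filter_true_of_mem]
    intro a _
    have h3 := hcon a
    rcases Int.natAbs_eq N with h7 | h7
    · rw [h7, zpow_natCast] at h3
      exact h3
    · rw [h7, _root_.zpow_neg, zpow_natCast, inv_eq_one] at h3
      exact h3
  rw [h2, card_univ, ZMod.card_units] at h1
  omega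

/-- a power of some matrix is not a zero of the linear form -/
lemma exists_ne (N : ℤ) (hN : N ≠ 0) (hP : N.natAbs + 1 < P) (h : Fin n → Fin n → ZMod P)
    (hh : h ≠ 0) : ∃ Z : GL (Fin n) (ZMod P),
      lf h ((Z ^ N : GL (Fin n) (ZMod P)) : Matrix (Fin n) (Fin n) (ZMod P)) ≠ 0 := by
  by_cases h1 : ∑ a, h a a = 0
  · by_cases h2 : ∃ a, h a a ≠ 0
    · obtain ⟨a, ha⟩ := h2
      obtain ⟨z, hz⟩ := exists_pow_ne N hN hP
      refine ⟨Units.map (dg a) z, ?_⟩
      rw [← map_zpow, Units.coe_map]
      change lf h (dg a ((z ^ N : (ZMod P)ˣ) : ZMod P)) ≠ 0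
      rw [lf_dg, h1, zero_add]
      refine mul_ne_zero ha ?_
      rw [sub_ne_zero]
      intro h3
      exact hz (Units.ext h3)
    · push Not at h2
      obtain ⟨a, b, hab⟩ : ∃ a b, h a b ≠ 0 := by
        by_contra h3
        push Not at h3
        exact hh (funext fun a => funext fun b => h3 a b)
      have hne : a ≠ b := by
        rintro rfl
        exact hab (h2 a)
      refine ⟨((Units.map (tv a b hne)).comp (toUnits : Multiplicative (ZMod P) ≃* _).toMonoidHom)
        (Multiplicative.ofAdd 1), ?_⟩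
      rw [← map_zpow]
      change lf h (tv a b hne ((Multiplicative.ofAdd (1 : ZMod P)) ^ N)) ≠ 0
      rw [lf_tv, h1, zero_add]
      refine mul_ne_zero hab ?_
      rw [toAdd_zpow, toAdd_ofAdd, zsmul_eq_mul, mul_one]
      intro h3
      rw [ZMod.intCast_zmod_eq_zero_iff_dvd] at h3
      have h4 := Int.le_of_dvd (by positivity) ((dvd_abs _ _).2 h3)
      rw [Int.abs_eq_natAbs] at h4
      omega
  · refine ⟨1, ?_⟩
    rw [_root_.one_zpow, Units.val_one, lf_one]
    exact h1

/-- the value of a word under a linear form on the exponents -/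
def ev (l : Fin k → ℤ) : FreeGroup (Fin k) →* Multiplicative ℤ :=
  FreeGroup.lift (fun i => Multiplicative.ofAdd (l i))

lemma lift_pow (l : Fin k → ℤ) (Z : GL (Fin n) (ZMod P)) (w : FreeGroup (Fin k)) :
    FreeGroup.lift (fun i => Z ^ (l i)) w = Z ^ (ev l w).toAdd := by
  have h : FreeGroup.lift (fun i => Z ^ (l i)) = (zpowersHom _ Z).comp (ev l) := by
    ext i
    simp [ev, zpowersHom_apply]
  rw [h]
  rfl

/-- few zeros -/
theorem zeros (hn : 1 ≤ n) (l : Fin k → ℤ) (w : FreeGroup (Fin k)) (hw : (ev l w).toAdd ≠ 0)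
    (hP : (ev l w).toAdd.natAbs + 1 < P) (h : Fin n → Fin n → ZMod P) (hh : h ≠ 0) :
    (univ.filter (fun X : Fin k → GL (Fin n) (ZMod P) =>
      lf h (FreeGroup.lift X w : GL (Fin n) (ZMod P)) = 0)).card * P ≤
      n * w.toWord.length * P ^ (k * (n * n)) := by
  classical
  set Φ : MvPolynomial (Fin k × Fin n × Fin n) (ZMod P) :=
    ∑ a, ∑ b, MvPolynomial.C (h a b) * wd (gen P n k) w.toWord a b with hΦ
  have hev : ∀ X : Fin k → GL (Fin n) (ZMod P), ∃ c : ZMod P, c ≠ 0 ∧
      MvPolynomial.eval (pt X) Φ = c * lf h (FreeGroup.lift X w : GL (Fin n) (ZMod P)) := by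
    intro X
    obtain ⟨c, hc, e⟩ := wd_eq X w.toWord
    rw [FreeGroup.mk_toWord] at e
    refine ⟨c, hc, ?_⟩
    rw [hΦ, map_sum]
    unfold lf
    rw [mul_sum]
    refine sum_congr rfl fun a _ => ?_
    rw [map_sum, mul_sum]
    refine sum_congr rfl fun b _ => ?_
    rw [map_mul, MvPolynomial.eval_C]
    have h1 := congrFun (congrFun (map_wd X w.toWord) a) b
    rw [RingHom.mapMatrix_apply, Matrix.map_apply] at h1
    rw [h1, e, Matrix.smul_apply, smul_eq_mul]
    ring
  have hne : Φ ≠ 0 := by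
    obtain ⟨Z, hZ⟩ := exists_ne _ hw hP h hh
    obtain ⟨c, hc, e⟩ := hev (fun i => Z ^ (l i))
    intro h0
    rw [h0, map_zero, lift_pow] at e
    exact (mul_ne_zero hc hZ) e.symm
  have hdeg : Φ.totalDegree ≤ n * w.toWord.length := by
    rw [hΦ]
    refine MvPolynomial.totalDegree_finsetSum_le fun a _ =>
      MvPolynomial.totalDegree_finsetSum_le fun b _ => ?_
    refine (MvPolynomial.totalDegree_mul _ _).trans ?_
    rw [MvPolynomial.totalDegree_C, zero_add]
    exact deg_wd hn _ _ _
  have h2 := sz Φ hne _ hdeg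
  rw [Fintype.card_prod, Fintype.card_prod, Fintype.card_fin, Fintype.card_fin] at h2
  refine le_trans (Nat.mul_le_mul_right _ ?_) h2
  refine card_le_card_of_injOn pt ?_ (pt_inj.injOn)
  intro X hX
  rw [mem_coe, mem_filter] at hX ⊢
  refine ⟨mem_univ _, ?_⟩
  obtain ⟨c, -, e⟩ := hev X
  rw [e, hX.2, mul_zero]

/-- the number of invertible matrices -/
lemma card_GL : P ^ (n * n) ≤ 2 ^ n * Fintype.card (GL (Fin n) (ZMod P)) := by
  classical
  have h := Matrix.card_GL_field (𝔽 := ZMod P) n
  rw [Nat.card_eq_fintype_card] at h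
  have e : Fintype.card (ZMod P) = P := ZMod.card P
  have hp : P.Prime := Fact.out
  calc P ^ (n * n) = ∏ _i : Fin n, P ^ n := by rw [prod_const, card_univ, Fintype.card_fin, pow_mul]
    _ ≤ ∏ i : Fin n, 2 * (P ^ n - P ^ (i : ℕ)) := by
        refine prod_le_prod' fun i _ => ?_
        have h1 : P ^ (i : ℕ) * 2 ≤ P ^ n := by
          calc P ^ (i : ℕ) * 2 ≤ P ^ (i : ℕ) * P := Nat.mul_le_mul_left _ hp.two_le
            _ = P ^ ((i : ℕ) + 1) := (pow_succ _ _).symm
            _ ≤ P ^ n := Nat.pow_le_pow_right hp.pos (by omega)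
        omega
    _ = 2 ^ n * Fintype.card (GL (Fin n) (ZMod P)) := by
        rw [prod_mul_distrib, prod_const, card_univ, Fintype.card_fin, h, e]

end Pool.Agent.J4.H53.WM
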